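import Pool.Statements.S00139
import Pool.Agent.P.MP_38c95b_ag.Final

set_option autoImplicit false
open Pool Pool.MP_38c95b_ag

namespace Pool.Agent.S00139

/-- For any degree-q≥2 endomorphism of projective N-space over the algebraic numbers and any invariant irreducible projective subvariety X, some algebraic point of X has Zariski dense forward orbit in X (equivalent to the polarizable case by Fakhruddin). -/
theorem result :
    ∀ (N q : ℕ) (f : Fin (N + 1) → MvPolynomial (Fin (N + 1)) (AlgebraicClosure ℚ))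
      (S : Set (MvPolynomial (Fin (N + 1)) (AlgebraicClosure ℚ))),
      2 ≤ q →
      (∀ i, (f i).IsHomogeneous q) →
      (∀ x : Fin (N + 1) → AlgebraicClosure ℚ,
          (∀ i, MvPolynomial.eval x (f i) = 0) → x = 0) →
      (∀ p ∈ S, ∃ d : ℕ, p.IsHomogeneous d) →
      (∃ x : Fin (N + 1) → AlgebraicClosure ℚ,
          x ≠ 0 ∧ ∀ p ∈ S, MvPolynomial.eval x p = 0) →
      (∀ (g h : MvPolynomial (Fin (N + 1)) (AlgebraicClosure ℚ)) (dg dh : ℕ),
          g.IsHomogeneous dg → h.IsHomogeneous dh →
          (∀ x : Fin (N + 1) → AlgebraicClosure ℚ,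
              (∀ p ∈ S, MvPolynomial.eval x p = 0) →
              MvPolynomial.eval x g * MvPolynomial.eval x h = 0) →
          (∀ x : Fin (N + 1) → AlgebraicClosure ℚ,
              (∀ p ∈ S, MvPolynomial.eval x p = 0) → MvPolynomial.eval x g = 0) ∨
          (∀ x : Fin (N + 1) → AlgebraicClosure ℚ,
              (∀ p ∈ S, MvPolynomial.eval x p = 0) → MvPolynomial.eval x h = 0)) →
      (∀ x : Fin (N + 1) → AlgebraicClosure ℚ,
          (∀ p ∈ S, MvPolynomial.eval x p = 0) →
          ∀ p ∈ S, MvPolynomial.eval (fun i => MvPolynomial.eval x (f i)) p = 0) →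
      ∃ a : Fin (N + 1) → AlgebraicClosure ℚ,
        a ≠ 0 ∧ (∀ p ∈ S, MvPolynomial.eval a p = 0) ∧
        ∀ (g : MvPolynomial (Fin (N + 1)) (AlgebraicClosure ℚ)) (d : ℕ),
          g.IsHomogeneous d →
          (∀ n : ℕ, MvPolynomial.eval
              ((fun y : Fin (N + 1) → AlgebraicClosure ℚ =>
                  fun i => MvPolynomial.eval y (f i))^[n] a) g = 0) →
          ∀ x : Fin (N + 1) → AlgebraicClosure ℚ,
            (∀ p ∈ S, MvPolynomial.eval x p = 0) → MvPolynomial.eval x g = 0 := by
  exact Pool.Agent.P.MP_38c95b_ag.cone_of_main Pool.Agent.P.MP_38c95b_ag.finalMain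

end Pool.Agent.S00139
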