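import Pool.Statements.S00613
import Pool.Agent.P.MP_045578_al.Final

set_option autoImplicit false
open Pool Pool.MP_045578_al

namespace Pool.Agent.S00613

/-- There is a torsion-free group G whose integral group ring has a unit that is neither g nor -g for any element g of G. -/
theorem result :
    ∃ (G : Type) (_ : Group G),
      (∀ g : G, ∀ n : ℕ, 0 < n → g ^ n = 1 → g = 1) ∧
      ∃ u : (MonoidAlgebra ℤ G)ˣ, ∀ g : G,
        (u : MonoidAlgebra ℤ G) ≠ MonoidAlgebra.single g (1 : ℤ) ∧
        (u : MonoidAlgebra ℤ G) ≠ MonoidAlgebra.single g (-1 : ℤ) := by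
  obtain ⟨u, hu⟩ := Pool.Agent.P.MP_045578_al.int_unit
  refine ⟨Pool.Agent.P.MP_045578_al.Prom, inferInstance,
    Pool.Agent.P.MP_045578_al.Prom.torsionFree, u, fun g => ⟨fun h => ?_, fun h => ?_⟩⟩
  · rw [h] at hu
    by_cases e : g = Pool.Agent.P.MP_045578_al.toP 991296
    · simp [e] at hu
    · simp [e] at hu
  · rw [h] at hu
    by_cases e : g = Pool.Agent.P.MP_045578_al.toP 991296
    · simp [e] at hu
    · simp [e] at hu

end Pool.Agent.S00613
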