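import Pool.Statements.S00661
import Pool.Agent.P.MP_08cc25_al.Main

set_option autoImplicit false
open Pointwise
open Pool Pool.MP_08cc25_al

namespace Pool.Agent.S00661

/-- Every infinite group G can be split into countably many pairwise disjoint sets A_n so that no A_n satisfies F·A_n = G for any subset F of G of cardinality smaller than that of G. -/
theorem result :
    ∀ (G : Type) [Group G], Infinite G →
      ∃ A : ℕ → Set G,
        (⋃ n, A n) = Set.univ ∧
        Pairwise (fun i j => Disjoint (A i) (A j)) ∧
        ∀ n, ¬ ∃ F : Set G, Cardinal.mk F < Cardinal.mk G ∧ F * A n = Set.univ := by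
  intro G _ hG
  exact Pool.Agent.P.MP_08cc25_al.main G hG

end Pool.Agent.S00661
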