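import Pool.Statements.S00774
import Pool.Agent.P.MP_1307d3_al.GT3
import Pool.Agent.P.MP_1307d3_al.GJor

set_option autoImplicit false
open Pool Pool.MP_1307d3_al

namespace Pool.Agent.S00774

/-- The negation of the preceding statement: There is a prime p and a locally finite group G with g^p = 1 for all g, having a proper abelian subgroup A such that every element of G is conjugate to some element of A. -/
theorem result :
    ¬ (∃ p : ℕ, p.Prime ∧
      ∃ (G : Type) (_ : Group G),
        (∀ s : Set G, s.Finite → (Subgroup.closure s : Set G).Finite) ∧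
        (∀ g : G, g ^ p = 1) ∧
        ∃ A : Subgroup G, A ≠ ⊤ ∧
          (∀ a ∈ A, ∀ b ∈ A, a * b = b * a) ∧
          ∀ x : G, ∃ g : G, ∃ a ∈ A, x = g⁻¹ * a * g) := by
  exact P.MP_1307d3_al.End.final (fun _ hp => P.MP_1307d3_al.End.rbp hp) fun _ hp =>
    P.MP_1307d3_al.Grp.t3_of_step hp fun h5 _ _ hL hE _ _ _ C inj _ L nil _ nil2 _ a1 ha =>
      P.MP_1307d3_al.Grp.exists_quadratic hp h5 hL hE C inj L nil nil2 a1 ha

end Pool.Agent.S00774
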