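import Pool.Statements.S01018
import Pool.Agent.P.MP_29765e_al.Main

set_option autoImplicit false
open Pool Pool.MP_29765e_al

namespace Pool.Agent.S01018

/-- The negation of the preceding statement: There is a function f such that whenever a finite p-group G has an automorphism of order p whose fixed points all lie in the centre of G, the derived series of G reaches the trivial group by step f(p). -/
theorem result :
    ¬ (∃ f : ℕ → ℕ, ∀ (p : ℕ), p.Prime →
      ∀ (G : Type) [Group G] [Finite G], IsPGroup p G →
        ∀ φ : MulAut G, orderOf φ = p →
          (∀ g : G, φ g = g → g ∈ Subgroup.center G) →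
            derivedSeries G (f p) = ⊥) := by
  rintro ⟨f, hf⟩
  obtain ⟨Γ, _, _, φ, h1, h2, h3, h4⟩ := Pool.Agent.P.MP_29765e_al.counterexample (f 5)
  exact h4 (hf 5 (by norm_num) Γ h1 φ h2 h3)

end Pool.Agent.S01018
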