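import Pool.Statements.S01055
import Pool.Agent.P.MP_2cb329_al.MAIN
import Pool.Agent.P.MP_2cb329_al.F.Bridge
import Pool.Agent.P.MP_2cb329_al.F.Asm
import Pool.Agent.P.MP_2cb329_al.F.MTop
import Pool.Agent.P.MP_2cb329_al.F.RTT
import Pool.Agent.P.MP_2cb329_al.F.GMain
import Pool.Agent.P.MP_2cb329_al.EG.Top

set_option autoImplicit false
open Pool Pool.MP_2cb329_al

namespace Pool.Agent.S01055

/-- For every n and every single relator r in the free group on n generators, deciding whether two given words are conjugate in the group ⟨x₁,…,xₙ ∣ r⟩ is a computable predicate. -/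
theorem result :
    ∀ (n : ℕ) (r : FreeGroup (Fin n)),
      ComputablePred
        (fun p : List (Fin n × Bool) × List (Fin n × Bool) =>
          IsConj
            (PresentedGroup.mk ({r} : Set (FreeGroup (Fin n))) (FreeGroup.mk p.1))
            (PresentedGroup.mk ({r} : Set (FreeGroup (Fin n))) (FreeGroup.mk p.2))) :=
  fun n r => CPOR.main_of_F (CPOR.sF_of_sys (CPOR.gall_of_blocks CPOR.s_gap CPOR.rtt
    (CPOR.s_eg CPOR.s_neg) CPOR.s_neg CPOR.s_exp)) n r

end Pool.Agent.S01055
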