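import Pool.Statements.S01104
import Pool.Agent.P.MP_317811_al.Four

set_option autoImplicit false
open Pointwise
open Pool Pool.MP_317811_al

namespace Pool.Agent.S01104

/-- The negation of the preceding statement: For every group G and every partition of G into n cells A_1,…,A_n, some cell A_i and some finite set F of at most n elements satisfy A_i⁻¹·A_i·F = G. -/
theorem result :
    ¬ (∀ (G : Type) [Group G] (n : ℕ) (A : Fin n → Set G),
      Pairwise (fun i j => Disjoint (A i) (A j)) →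
      (⋃ i, A i) = Set.univ →
      ∃ i : Fin n, ∃ F : Finset G, F.card ≤ n ∧
        (A i)⁻¹ * A i * (F : Set G) = Set.univ) := by
  intro H
  obtain ⟨x, hx⟩ := Pool.Agent.P.MP_317811_al.four_colouring
  obtain ⟨i, F, hF, hU⟩ := H (FreeGroup ℕ) 4 (fun j => {y | x y⁻¹ = j})
    (by
      intro i j hij
      refine Set.disjoint_left.2 fun y hi hj => hij ?_
      exact (show x y⁻¹ = i from hi).symm.trans hj)
    (by
      refine Set.eq_univ_of_forall fun y => Set.mem_iUnion.2 ⟨x y⁻¹, rfl⟩)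
  obtain ⟨g, hg⟩ := hx i F hF
  have hmem : g ∈ ({y | x y⁻¹ = i} : Set (FreeGroup ℕ))⁻¹ * {y | x y⁻¹ = i} *
      (F : Set (FreeGroup ℕ)) := by
    rw [hU]; trivial
  obtain ⟨_, ⟨a, ha, b, hb, rfl⟩, f, hf, hgf⟩ := hmem
  refine hg (f⁻¹ * b⁻¹) f hf ⟨?_, ?_⟩
  · have h1 : g * (f⁻¹ * b⁻¹) = a := by
      rw [← hgf]; group
    have h2 : x a⁻¹⁻¹ = i := ha
    rw [h1]; simpa using h2
  · have h1 : f * (f⁻¹ * b⁻¹) = b⁻¹ := by group
    rw [h1]; exact hb

end Pool.Agent.S01104
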