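import Pool.Statements.S01218
import Pool.Agent.P.MP_3a4479_al.All

set_option autoImplicit false
open Pool Pool.MP_3a4479_al

namespace Pool.Agent.S01218

/-- The negation of the preceding statement: If R is a Noetherian F-finite domain of prime characteristic that is a splinter, then every R-algebra S with a nonzero R-linear map S → R admits an R-linear map S → R sending 1 to 1, i.e. R → S splits. -/
theorem result :
    ¬ (∀ (R : Type) [CommRing R] [IsDomain R] [IsNoetherianRing R] (p : ℕ), p.Prime →
      ∀ [ExpChar R p],
      (frobenius R p).Finite →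
      (∀ (T : Type) [CommRing T] [Algebra R T],
          Function.Injective (algebraMap R T) → Module.Finite R T →
            ∃ φ : T →ₗ[R] R, φ 1 = 1) →
      ∀ (S : Type) [CommRing S] [Algebra R S],
        (∃ φ : S →ₗ[R] R, φ ≠ 0) →
          ∃ ψ : S →ₗ[R] R, ψ 1 = 1) := by
  intro H
  obtain ⟨R, _, _, _, _, _, _, hF, hS, ⟨S, _, _, h1, h2⟩, -⟩ :=
    Pool.Agent.P.MP_3a4479_al.example_ring Pool.Agent.P.MP_3a4479_al.partB
  exact h2 (H R 2 Nat.prime_two hF hS S h1)

end Pool.Agent.S01218
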