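import Pool.Statements.S02616
import Pool.Agent.P.MP_a8e993_al.Group

set_option autoImplicit false
open Pool Pool.MP_a8e993_al

namespace Pool.Agent.S02616

/-- The negation of the preceding statement: Take a group G that is (finitely generated free)-by-ℤ and not the fundamental group of any compact 3-manifold. Then every finitely generated abelian group A is a direct summand of the abelianisation of some finite-index subgroup of G. -/
theorem result :
    ¬ (∀ (G : Type) [Group G] (N : Subgroup G) [N.Normal] (n : ℕ),
      Nonempty (↥N ≃* FreeGroup (Fin n)) →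
      Nonempty (G ⧸ N ≃* Multiplicative ℤ) →
      (¬ ∃ (M : Type) (_ : TopologicalSpace M) (_ : T2Space M) (_ : CompactSpace M)
          (_ : ChartedSpace (EuclideanHalfSpace 3) M) (x : M),
          Nonempty (FundamentalGroup M x ≃* G)) →
      ∀ (A : Type) [AddCommGroup A] [AddGroup.FG A],
        ∃ (H : Subgroup G), H.FiniteIndex ∧
          ∃ (B : Type) (_ : AddCommGroup B),
            Nonempty (Additive (Abelianization ↥H) ≃+ A × B)) := by
  intro h
  open Pool.Agent.P.MP_a8e993_al in
  obtain ⟨H, -, B, _, ⟨e⟩⟩ := h Grp (SemidirectProduct.rightHom (φ := mono)).ker 4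
    ⟨(MulEquiv.subgroupCongr SemidirectProduct.range_inl_eq_ker_rightHom.symm).trans
      (MonoidHom.ofInjective SemidirectProduct.inl_injective).symm⟩
    ⟨QuotientGroup.quotientKerEquivOfSurjective _ SemidirectProduct.rightHom_surjective⟩
    (fun ⟨_, _, _, _, _, x, ⟨φ⟩⟩ => grp_not_fundamentalGroup x φ) (ZMod 2)
  have h1 : (e.symm (1, 0)).toMul ^ 2 = 1 := by
    rw [pow_two, ← toMul_add, ← map_add, Prod.mk_add_mk, add_zero,
      show (1 + 1 : ZMod 2) = 0 from rfl, Prod.mk_zero_zero, map_zero, toMul_zero]
  have h2 : e.symm (1, 0) = 0 := Pool.Agent.P.MP_a8e993_al.ab_sq H _ h1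
  have h3 := congrArg Prod.fst ((map_eq_zero_iff _ e.symm.injective).1 h2)
  exact absurd h3 (show (1 : ZMod 2) ≠ 0 by decide)

end Pool.Agent.S02616
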