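import Pool.Statements.S02837
import Pool.Agent.P.MP_b83182_al.Final

set_option autoImplicit false
open scoped TensorProduct
open Pool Pool.MP_b83182_al

namespace Pool.Agent.S02837

/-- Some finite-dimensional nilpotent real Lie algebra has ℚ-forms falling into exactly k isomorphism classes, with k finite and at least 2. -/
theorem result :
    ∃ (L : Type) (_ : LieRing L) (_ : LieAlgebra ℝ L),
      FiniteDimensional ℝ L ∧
      (∃ n : ℕ, LieModule.lowerCentralSeries ℝ L L n = ⊥) ∧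
      ∃ k : ℕ, 1 < k ∧
        ∃ (M : Fin k → Type) (_ : ∀ i, LieRing (M i)) (_ : ∀ i, LieAlgebra ℚ (M i)),
          (∀ i, Nonempty (L ≃ₗ⁅ℝ⁆ ℝ ⊗[ℚ] M i)) ∧
          (∀ i j, Nonempty (M i ≃ₗ⁅ℚ⁆ M j) → i = j) ∧
          ∀ (N : Type) (_ : LieRing N) (_ : LieAlgebra ℚ N),
            Nonempty (L ≃ₗ⁅ℝ⁆ ℝ ⊗[ℚ] N) → ∃ i, Nonempty (N ≃ₗ⁅ℚ⁆ M i) := by
  open Pool.Agent.P.MP_b83182_al in
  refine ⟨G ℝ 1 1 1, inferInstance, inferInstance, inferInstance, ⟨3, nilpotent_G⟩, 2,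
    one_lt_two, fun i => G ℚ (par i) 1 1, fun _ => inferInstance, fun _ => inferInstance,
    fun i => is_form ?_, fun i j h => ?_, fun N _ _ ⟨e⟩ => ?_⟩
  · fin_cases i <;> norm_num [Pool.Agent.P.MP_b83182_al.par]
  · fin_cases i <;> fin_cases j
    · rfl
    · exact absurd (h.map fun φ => φ.symm) Pool.Agent.P.MP_b83182_al.not_equiv
    · exact absurd h Pool.Agent.P.MP_b83182_al.not_equiv
    · rfl
  · rcases Pool.Agent.P.MP_b83182_al.classification e with h | h
    · exact ⟨0, h⟩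
    · exact ⟨1, h⟩

end Pool.Agent.S02837
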