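import Pool.Statements.S02924
import Pool.Agent.P.MP_be2783_al.Group

set_option autoImplicit false
open Pool Pool.MP_be2783_al

namespace Pool.Agent.S02924

/-- The negation of the preceding statement: For all groups A and B, if some subgroup of A×B maps onto the dihedral group of order 18, then some subgroup of A or some subgroup of B maps onto that dihedral group. -/
theorem result :
    ¬ (∀ (A B : Type) [Group A] [Group B],
      (∃ H : Subgroup (A × B), ∃ f : H →* DihedralGroup 9, Function.Surjective f) →
      ((∃ H : Subgroup A, ∃ f : H →* DihedralGroup 9, Function.Surjective f) ∨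
       (∃ H : Subgroup B, ∃ f : H →* DihedralGroup 9, Function.Surjective f))) := by
  intro h
  rcases h P.MP_be2783_al.GA P.MP_be2783_al.GB
    ⟨P.MP_be2783_al.GH, P.MP_be2783_al.fH, P.MP_be2783_al.fH_surjective⟩ with h | h
  · exact P.MP_be2783_al.no_section_A h
  · exact P.MP_be2783_al.no_section_B h

end Pool.Agent.S02924
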