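import Pool.Statements.S03049
import Pool.Agent.P.MP_caa3d2_al.Monoid

set_option autoImplicit false
open Pool Pool.MP_caa3d2_al

namespace Pool.Agent.S03049

/-- For every finite alphabet and relator word r, the group of units of the inverse monoid Inv⟨A ∣ r=1⟩ has a finite generating set for which the set of words over those generators and their inverses that equal 1 is computable. -/
theorem result :
  ∀ (n : ℕ) (r : FreeMonoid (Fin n × Bool))
    (ι : FreeMonoid (Fin n × Bool) → FreeMonoid (Fin n × Bool))
    (c : Con (FreeMonoid (Fin n × Bool))),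
    (∀ w : FreeMonoid (Fin n × Bool),
      ι w = FreeMonoid.ofList ((FreeMonoid.toList w).reverse.map (fun p => (p.1, !p.2)))) →
    c = conGen (fun x y : FreeMonoid (Fin n × Bool) =>
          (∃ u : FreeMonoid (Fin n × Bool), x = u * ι u * u ∧ y = u) ∨
          (∃ u v : FreeMonoid (Fin n × Bool),
              x = u * ι u * v * ι v ∧ y = v * ι v * u * ι u) ∨
          (x = r ∧ y = 1)) →
    ∃ (k : ℕ) (g : Fin k → (c.Quotient)ˣ),
      Subgroup.closure (Set.range g) = ⊤ ∧
      ComputablePred (fun w : List (Fin k × Bool) =>
        (w.map (fun p => if p.2 then (g p.1)⁻¹ else g p.1)).prod = 1) := by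
  intro n r ι c h1 h2
  exact (Pool.Agent.P.MP_caa3d2_al.im_quot r ι c h1 h2).main

end Pool.Agent.S03049
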