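import Pool.Statements.S03404
import Pool.Agent.P.MP_e7c2f2_al.Final

set_option autoImplicit false
open Pool Pool.MP_e7c2f2_al

namespace Pool.Agent.S03404

/-- The negation of the preceding statement: There is an algorithm that, given the multiplication table of a finite semigroup, decides whether the table is a valid associative semigroup whose identities follow from some finite set of its identities. -/
theorem result :
    ¬ (ComputablePred (fun T : List (List ℕ) =>
      (∀ r ∈ T, r.length = T.length ∧ ∀ x ∈ r, x < T.length) ∧
      (∀ a b c : ℕ, a < T.length → b < T.length → c < T.length →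
        (T.getD ((T.getD a []).getD b 0) []).getD c 0 =
          (T.getD a []).getD ((T.getD b []).getD c 0) 0) ∧
      ∃ B : Finset (FreeSemigroup ℕ × FreeSemigroup ℕ),
        (∀ p ∈ B, ∀ f : ℕ → ℕ, (∀ k, f k < T.length) →
          (p.1.tail.map f).foldl (fun x y => (T.getD x []).getD y 0) (f p.1.head) =
            (p.2.tail.map f).foldl (fun x y => (T.getD x []).getD y 0) (f p.2.head)) ∧
        ∀ u v : FreeSemigroup ℕ,
          (∀ f : ℕ → ℕ, (∀ k, f k < T.length) →
            (u.tail.map f).foldl (fun x y => (T.getD x []).getD y 0) (f u.head) =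
              (v.tail.map f).foldl (fun x y => (T.getD x []).getD y 0) (f v.head)) →
          ∀ R : FreeSemigroup ℕ → FreeSemigroup ℕ → Prop,
            Equivalence R →
            (∀ a b c : FreeSemigroup ℕ, R a b → R (c * a) (c * b) ∧ R (a * c) (b * c)) →
            (∀ (σ : ℕ → FreeSemigroup ℕ) (a b : FreeSemigroup ℕ), R a b →
              R (FreeSemigroup.lift σ a) (FreeSemigroup.lift σ b)) →
            (∀ p ∈ B, R p.1 p.2) →
            R u v)) :=
  Pool.Agent.P.MP_e7c2f2_al.undecidable

end Pool.Agent.S03404
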