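import Pool.Statements.S03621
import Pool.Agent.P.MP_fcd401_al.Asymp

set_option autoImplicit false
open Pool Pool.MP_fcd401_al

namespace Pool.Agent.S03621

/-- Some finitely generated residually finite group G and irrational α satisfy: log(number of subgroups of index at most n) divided by log(n!) tends to α, i.e. subgroup growth is (n!)^(α+o(1)) with α irrational. -/
theorem result :
    ∃ (G : Type) (_ : Group G), Group.FG G ∧
      (∀ g : G, g ≠ 1 → ∃ H : Subgroup G, H.FiniteIndex ∧ g ∉ H) ∧
      ∃ α : ℝ, Irrational α ∧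
        Filter.Tendsto
          (fun n : ℕ =>
            Real.log ((Set.ncard {H : Subgroup G | H.index ≠ 0 ∧ H.index ≤ n} : ℕ) : ℝ) /
              Real.log ((Nat.factorial n : ℕ) : ℝ))
          Filter.atTop (nhds α) := by
  have h2 : Real.sqrt 2 ≤ 2 := by
    rw [Real.sqrt_le_iff]
    norm_num
  have h0 : (0 : ℝ) ≤ Real.sqrt 2 / 2 := by positivity
  have h1 : Real.sqrt 2 / 2 ≤ 1 := by linarith
  refine ⟨P.MP_fcd401_al.Grp (P.MP_fcd401_al.Rel (Real.sqrt 2 / 2)), inferInstance,
    P.MP_fcd401_al.grp_fg _, P.MP_fcd401_al.grp_rf _, 72 + Real.sqrt 2 / 2 / 3, ?_,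
    P.MP_fcd401_al.growth _ h0 h1⟩
  have h3 : Irrational (Real.sqrt 2 / 2 / 3) := by
    have := (irrational_sqrt_two.div_natCast (m := 2) (by norm_num)).div_natCast (m := 3)
      (by norm_num)
    simpa using this
  simpa using h3.natCast_add 72

end Pool.Agent.S03621
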