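import Pool.Statements.S04296
import Pool.Agent.P.MP_3426c0_an.Twist

set_option autoImplicit false
open Pointwise
open Pool Pool.MP_3426c0_an

namespace Pool.Agent.S04296

/-- The negation of the preceding statement: In a compactly generated locally compact Hausdorff group, if one discrete cocompact subgroup has rapid decay (convolution by functions on word balls of radius n has operator norm polynomial in n), then every other discrete cocompact subgroup does too. -/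
theorem result :
    ¬ (∀ (G : Type) [TopologicalSpace G] [Group G] [IsTopologicalGroup G]
      [LocallyCompactSpace G] [T2Space G],
      (∃ K : Set G, IsCompact K ∧ Subgroup.closure K = ⊤) →
      ∀ Γ₁ Γ₂ : Subgroup G,
        DiscreteTopology Γ₁ → CompactSpace (G ⧸ Γ₁) →
        DiscreteTopology Γ₂ → CompactSpace (G ⧸ Γ₂) →
        (∃ S : Set Γ₂, S.Finite ∧ Subgroup.closure S = ⊤ ∧
          ∃ C : ℝ, ∃ d : ℕ, ∀ n : ℕ, ∀ f g : Γ₂ →₀ ℂ,
            (↑f.support : Set Γ₂) ⊆ (S ∪ S⁻¹ ∪ {1} : Set Γ₂) ^ n →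
            (∑' x : Γ₂, ‖∑ y ∈ f.support, f y * g (y⁻¹ * x)‖ ^ 2) ≤
              C * ((n : ℝ) + 1) ^ d * (∑ y ∈ f.support, ‖f y‖ ^ 2) *
                (∑ y ∈ g.support, ‖g y‖ ^ 2)) →
        (∃ S : Set Γ₁, S.Finite ∧ Subgroup.closure S = ⊤ ∧
          ∃ C : ℝ, ∃ d : ℕ, ∀ n : ℕ, ∀ f g : Γ₁ →₀ ℂ,
            (↑f.support : Set Γ₁) ⊆ (S ∪ S⁻¹ ∪ {1} : Set Γ₁) ^ n →
            (∑' x : Γ₁, ‖∑ y ∈ f.support, f y * g (y⁻¹ * x)‖ ^ 2) ≤
              C * ((n : ℝ) + 1) ^ d * (∑ y ∈ f.support, ‖f y‖ ^ 2) *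
                (∑ y ∈ g.support, ‖g y‖ ^ 2))) := by
  intro h
  let _ : TopologicalSpace P.MP_3426c0_an.X := ⊥
  have : DiscreteTopology P.MP_3426c0_an.X := ⟨rfl⟩
  have := P.MP_3426c0_an.locallyCompact_aut P.MP_3426c0_an.adj_finite 1 P.MP_3426c0_an.adj_conn
  refine P.MP_3426c0_an.not_rd_comm_bD
    (h (P.MP_3426c0_an.adj ≃r P.MP_3426c0_an.adj) ?_ _ (P.MP_3426c0_an.comm 0) ?_ ?_ ?_ ?_
      P.MP_3426c0_an.rd_comm_zero)
  · exact P.MP_3426c0_an.compactly_generated P.MP_3426c0_an.adj_refl P.MP_3426c0_an.adj_finite 1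
      P.MP_3426c0_an.adj_conn fun q => (P.MP_3426c0_an.comm_zero_trans q).imp fun _ h => h.2
  · exact P.MP_3426c0_an.discrete_of_free _ 1 P.MP_3426c0_an.comm_bD_free
  · exact P.MP_3426c0_an.cocompact_of_transitive P.MP_3426c0_an.adj_finite 1
      P.MP_3426c0_an.adj_conn _ P.MP_3426c0_an.comm_bD_trans
  · exact P.MP_3426c0_an.discrete_of_free _ 1 P.MP_3426c0_an.comm_zero_free
  · exact P.MP_3426c0_an.cocompact_of_transitive P.MP_3426c0_an.adj_finite 1
      P.MP_3426c0_an.adj_conn _ P.MP_3426c0_an.comm_zero_trans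

end Pool.Agent.S04296
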