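import Pool.Statements.S04470
import Pool.Agent.P.MP_41df0b_an.Link
import Pool.Agent.P.MP_41df0b_an.Scheme

set_option autoImplicit false
open Pool Pool.MP_41df0b_an

namespace Pool.Agent.S04470

/-- The negation of the preceding statement: Two axially symmetric domains containing 0 are equal whenever, for every t>0, the harmonic measure at 0 of the line Re z=t in the cross-section component containing 0 (via Perron's method) coincides. -/
theorem result :
    ¬ (∀ (adm : Set ℂ → Prop),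
      (∀ G : Set ℂ, adm G ↔
        (IsOpen G ∧ IsConnected G ∧ (0 : ℂ) ∈ G ∧
          ∀ z ∈ G, segment ℝ z ((starRingEnd ℂ) z) ⊆ G)) →
    ∀ (C : Set ℂ → ℝ → Set ℂ),
      (∀ (G : Set ℂ) (t : ℝ), C G t = connectedComponentIn {z : ℂ | z ∈ G ∧ z.re < t} 0) →
    ∀ (ω : Set ℂ → ℝ → ℝ),
      (∀ (G : Set ℂ) (t : ℝ), ω G t = sInf {x : ℝ | ∃ u : ℂ → ℝ,
          LowerSemicontinuousOn u (C G t) ∧
          (∀ z ∈ C G t, 0 ≤ u z ∧ u z ≤ 1) ∧
          (∀ a : ℂ, ∀ r : ℝ, 0 < r → Metric.closedBall a r ⊆ C G t →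
              (∫ θ in (0 : ℝ)..(2 * Real.pi), u (circleMap a r θ)) ≤ 2 * Real.pi * u a) ∧
          (∀ ζ ∈ frontier (C G t) ∩ {z : ℂ | z.re = t}, ∀ ε : ℝ, 0 < ε →
              ∀ᶠ z in nhdsWithin ζ (C G t), 1 - ε < u z) ∧
          u 0 = x}) →
    ∀ D₁ D₂ : Set ℂ, adm D₁ → adm D₂ →
      (∀ t : ℝ, 0 < t → ω D₁ t = ω D₂ t) → D₁ = D₂) := by
  intro H
  obtain ⟨g₁, g₂, p1, p2, c1, c2, d1, d2, he⟩ := Pool.Agent.P.MP_41df0b_an.exists_profiles
  have hb : (0 : ℝ) < 1 / 12800 := by norm_num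
  have key := H _ (fun _ => Iff.rfl) _ (fun _ _ => rfl)
    (fun G t => sInf (Pool.Agent.P.MP_41df0b_an.PerronSet
      (connectedComponentIn {z : ℂ | z ∈ G ∧ z.re < t} 0) t)) (fun _ _ => rfl)
    (Pool.Agent.P.MP_41df0b_an.CC g₁ (1 / 12800)) (Pool.Agent.P.MP_41df0b_an.CC g₂ (1 / 12800))
    ⟨Pool.Agent.P.MP_41df0b_an.isOpen_CC _ _, ⟨⟨0, p1.zero_mem_CC hb⟩, p1.preconnected_CC hb⟩,
      p1.zero_mem_CC hb, fun _ hz => Pool.Agent.P.MP_41df0b_an.CC_segment hz⟩
    ⟨Pool.Agent.P.MP_41df0b_an.isOpen_CC _ _, ⟨⟨0, p2.zero_mem_CC hb⟩, p2.preconnected_CC hb⟩,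
      p2.zero_mem_CC hb, fun _ hz => Pool.Agent.P.MP_41df0b_an.CC_segment hz⟩
    (fun t ht => by
      rcases le_or_gt t (1 / 12800) with h | h
      · simp only [Pool.Agent.P.MP_41df0b_an.CC_cut p1 h, Pool.Agent.P.MP_41df0b_an.CC_cut p2 h,
          (p1.preconnected_CC ht).connectedComponentIn (p1.zero_mem_CC ht),
          (p2.preconnected_CC ht).connectedComponentIn (p2.zero_mem_CC ht)]
        exact Pool.Agent.P.MP_41df0b_an.perron_eq p1 p2 ht (c1 t) (c2 t) (he t ht h)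
      · have z : ∀ g, Pool.Agent.P.MP_41df0b_an.Prof g →
            sInf (Pool.Agent.P.MP_41df0b_an.PerronSet (connectedComponentIn
              {z : ℂ | z ∈ Pool.Agent.P.MP_41df0b_an.CC g (1 / 12800) ∧ z.re < t} 0) t) = 0 :=
          fun g p => Pool.Agent.P.MP_41df0b_an.perron_zero
            (mem_connectedComponentIn (And.intro (p.zero_mem_CC hb) (by simpa using ht)))
            (fun z hz => (connectedComponentIn_subset _ _ hz).1.2) h
        simp only [z g₁ p1, z g₂ p2])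
  have m2 : (⟨-3, 50⟩ : ℂ) ∈ Pool.Agent.P.MP_41df0b_an.CC g₂ (1 / 12800) := by
    refine ⟨⟨-2, Or.inl (by norm_num), ?_⟩, by norm_num⟩
    rw [min_eq_left (by norm_num)]
    norm_num
    linarith
  rw [← key] at m2
  obtain ⟨⟨s, h1, h2⟩, -⟩ := m2
  have h3 : g₁ (min s (1 / 12800)) ≤ g₁ (-3) := p1.anti (le_min (by
    rcases h1 with h1 | h1
    · exact le_of_lt h1
    · norm_num at h1
      linarith) (by norm_num))
  norm_num at h2 h3
  linarith

end Pool.Agent.S04470
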