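import Pool.Statements.S04580
import Pool.Agent.P.MP_f981b0_an.IS.All

set_option autoImplicit false
open Pool Pool.MP_49c4d9_an

namespace Pool.Agent.S04580

/-- The negation of the preceding statement: For every complex Hilbert space and bounded operator T, if every closed T-invariant subspace is also invariant under the adjoint of T (i.e. reducing), then T is normal. -/
theorem result :
    ¬ (∀ (H : Type) [NormedAddCommGroup H] [InnerProductSpace ℂ H] [CompleteSpace H]
      (T : H →L[ℂ] H),
      (∀ K : Submodule ℂ H, IsClosed (K : Set H) → (∀ x ∈ K, T x ∈ K) →
          ∀ x ∈ K, ContinuousLinearMap.adjoint T x ∈ K) →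
      IsStarNormal T) := by
  exact Pool.Agent.IS.main.2

end Pool.Agent.S04580
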