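import Pool.Statements.S05185
import Pool.Agent.P.MP_7e8329_an.Main

set_option autoImplicit false
open Pool Pool.MP_7e8329_an

namespace Pool.Agent.S05185

/-- For every annulus between two disjoint smooth Jordan curves and every harmonic ψ taking distinct constants on them, some concentric circular annulus of the same area has α (boundary integral of ∣∇ψ∣² over Dirichlet energy) no larger. -/
theorem result :
    ∀ (γ₁ γ₂ : ℝ → ℂ),
      ContDiff ℝ (⊤ : ℕ∞) γ₁ → ContDiff ℝ (⊤ : ℕ∞) γ₂ →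
      Function.Periodic γ₁ 1 → Function.Periodic γ₂ 1 →
      Set.InjOn γ₁ (Set.Ico 0 1) → Set.InjOn γ₂ (Set.Ico 0 1) →
      (∀ t, deriv γ₁ t ≠ 0) → (∀ t, deriv γ₂ t ≠ 0) →
      Disjoint (Set.range γ₁) (Set.range γ₂) →
      ∀ (U : Set ℂ), IsOpen U → IsConnected U → Bornology.IsBounded U →
        frontier U = Set.range γ₁ ∪ Set.range γ₂ →
      ∀ (ψ : ℂ → ℝ), ContDiff ℝ 2 ψ →
        (∀ z ∈ U, iteratedFDeriv ℝ 2 ψ z ![(1 : ℂ), 1]
            + iteratedFDeriv ℝ 2 ψ z ![Complex.I, Complex.I] = 0) →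
      ∀ (c₁ c₂ : ℝ), c₁ ≠ c₂ →
        (∀ t, ψ (γ₁ t) = c₁) → (∀ t, ψ (γ₂ t) = c₂) →
      ∃ a b : ℝ, 0 < a ∧ a < b ∧
        Real.pi * (b ^ 2 - a ^ 2) = (MeasureTheory.volume U).toReal ∧
        (1 / a + 1 / b) / Real.log (b / a) ≤
          (∫ z in frontier U, ‖fderiv ℝ ψ z‖ ^ 2
              ∂(MeasureTheory.Measure.hausdorffMeasure 1)) /
          (∫ z in U, ‖fderiv ℝ ψ z‖ ^ 2) := by
  intro γ₁ γ₂ s₁ s₂ p₁ p₂ i₁ i₂ d₁ d₂ hd U ho hconn hb hf ψ hψ hl c₁ c₂ hne v₁ v₂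
  have j₁ : Pool.Agent.P.MP_7e8329_an.JC γ₁ := ⟨s₁.of_le (WithTop.coe_le_coe.mpr le_top), p₁, i₁, d₁⟩
  have j₂ : Pool.Agent.P.MP_7e8329_an.JC γ₂ := ⟨s₂.of_le (WithTop.coe_le_coe.mpr le_top), p₂, i₂, d₂⟩
  have hh := Pool.Agent.P.MP_7e8329_an.harmonic_of_lap hψ ho hl
  rcases hne.lt_or_gt with h | h
  · obtain ⟨_, _, _, _, A⟩ :=
      Pool.Agent.P.MP_7e8329_an.exists_ann j₁ j₂ hd ho hconn hb hf hψ hh h v₁ v₂
    exact A.result
  · obtain ⟨_, _, _, _, A⟩ := Pool.Agent.P.MP_7e8329_an.exists_ann j₂ j₁ hd.symm ho hconn hb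
      (by rw [hf, Set.union_comm]) hψ hh h v₂ v₁
    exact A.result

end Pool.Agent.S05185
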