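import Pool.Statements.S05810
import Pool.Agent.P.MP_ae6ac5_an.Main

set_option autoImplicit false
open MeasureTheory Filter Topology Set
open scoped Classical
open Pool Pool.MP_ae6ac5_an

namespace Pool.Agent.S05810

/- Counterexample: G is the integral Heisenberg group with generators x, y and central z,
N i is the congruence subgroup modulo 2^(i+1), r = s = 1 and A = 1 - 12 (1 - x) y.
Over every finite quotient G / N i the determinant is at most 10, because (1 - x) y is nilpotent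
on the half of L^2(G / N i) where z^(2^i) = -1.  Over G it is at least 11 (it equals 12);
this is shown through the other finite quotients in which x has order 2^(i+2). -/

/-- The negation of the preceding statement: For G with a descending directed family of normal subgroups meeting trivially and any integer matrix A over ZG, the Fuglede-Kadison determinants of the reductions of A over G/G_i converge to that of A over G. -/
theorem result :
    ¬ (∀ (G : Type) [Group G] (I : Type) [Preorder I] [IsDirected I (· ≤ ·)] [Nonempty I]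
    (N : I → Subgroup G) [∀ i, (N i).Normal],
    (∀ i j, i ≤ j → N j ≤ N i) → (⨅ i, N i) = ⊥ →
    ∀ (r s : ℕ) (a : Fin r → Fin s → (G →₀ ℤ)) (μ : Measure ℝ) (ν : I → Measure ℝ),
    IsFiniteMeasure μ → (∃ C : ℝ, μ (Icc 0 C)ᶜ = 0) →
    (∀ n : ℕ, ∫ x, x ^ n ∂μ =
      ∑ k : Fin r, (((Nat.iterate
          (fun (X : Fin r → Fin r → G → ℤ) => fun (k₁ k₂ : Fin r) (g : G) =>
            ∑ k' : Fin r, ∑ᶠ h : G, X k₁ k' h *
              ∑ l : Fin s, ∑ᶠ t : G, a k' l t * a k₂ l ((h⁻¹ * g)⁻¹ * t))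
          n
          (fun (k₁ k₂ : Fin r) (g : G) => if k₁ = k₂ ∧ g = 1 then (1 : ℤ) else 0))
          k k 1 : ℤ) : ℝ)) →
    (∀ i, IsFiniteMeasure (ν i) ∧ (∃ C : ℝ, ν i (Icc 0 C)ᶜ = 0) ∧
      ∀ n : ℕ, ∫ x, x ^ n ∂(ν i) =
        ∑ k : Fin r, (((Nat.iterate
          (fun (X : Fin r → Fin r → G ⧸ N i → ℤ) => fun (k₁ k₂ : Fin r) (g : G ⧸ N i) =>
            ∑ k' : Fin r, ∑ᶠ h : G ⧸ N i, X k₁ k' h *
              ∑ l : Fin s, ∑ᶠ t : G ⧸ N i,
                (Finsupp.mapDomain (QuotientGroup.mk' (N i)) (a k' l)) t *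
                (Finsupp.mapDomain (QuotientGroup.mk' (N i)) (a k₂ l)) ((h⁻¹ * g)⁻¹ * t))
          n
          (fun (k₁ k₂ : Fin r) (g : G ⧸ N i) => if k₁ = k₂ ∧ g = 1 then (1 : ℤ) else 0))
          k k 1 : ℤ) : ℝ)) →
    Tendsto
      (fun i => if IntegrableOn Real.log (Ioi 0) (ν i)
        then Real.exp ((1 / 2 : ℝ) * ∫ x in Ioi 0, Real.log x ∂(ν i)) else 0)
      atTop
      (𝓝 (if IntegrableOn Real.log (Ioi 0) μ
        then Real.exp ((1 / 2 : ℝ) * ∫ x in Ioi 0, Real.log x ∂μ) else 0))) := by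
  intro hyp
  obtain ⟨μ, hμ1, hμ2, hμ3, hμ4, hμ5⟩ := P.MP_ae6ac5_an.exists_mu
  have key := hyp P.MP_ae6ac5_an.Heis ℕ (fun i => P.MP_ae6ac5_an.Heis.K (0 + 1) (2 ^ (i + 1)))
    (fun i j hij => P.MP_ae6ac5_an.Heis.K_anti hij) P.MP_ae6ac5_an.Heis.K_inf 1 1
    (fun _ _ => P.MP_ae6ac5_an.aa P.MP_ae6ac5_an.Heis.x P.MP_ae6ac5_an.Heis.y) μ
    P.MP_ae6ac5_an.nu inferInstance ⟨625, hμ2⟩ ?_ ?_
  · rw [if_pos hμ4] at key
    have hle : Real.exp ((1 / 2 : ℝ) * ∫ x in Ioi 0, Real.log x ∂μ) ≤ 10 := by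
      refine le_of_tendsto' key fun i => ?_
      split_ifs
      · have h1 := P.MP_ae6ac5_an.nu_log i
        calc _ ≤ Real.exp (Real.log 10) := Real.exp_le_exp.mpr (by linarith)
          _ = 10 := Real.exp_log (by norm_num)
      · norm_num
    have hge : (11 : ℝ) ≤ Real.exp ((1 / 2 : ℝ) * ∫ x in Ioi 0, Real.log x ∂μ) := by
      calc (11 : ℝ) = Real.exp (Real.log 11) := (Real.exp_log (by norm_num)).symm
        _ ≤ _ := Real.exp_le_exp.mpr (by linarith)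
    linarith
  · intro n
    rw [hμ3 n, P.MP_ae6ac5_an.iter_eq _ _ _ (fun _ _ => P.MP_ae6ac5_an.aa_eq _ _)
      (P.MP_ae6ac5_an.AS_coeff _ _)]
    · simp [P.MP_ae6ac5_an.mom]
    · intro k l g
      exact P.MP_ae6ac5_an.one_coeff k l g _
  · intro i
    refine ⟨inferInstance, ⟨625, P.MP_ae6ac5_an.nu_supp i⟩, fun n => ?_⟩
    have hit := P.MP_ae6ac5_an.iter_eq
      (fun _ _ => Finsupp.mapDomain (P.MP_ae6ac5_an.pr 0 i)
        (P.MP_ae6ac5_an.aa P.MP_ae6ac5_an.Heis.x P.MP_ae6ac5_an.Heis.y))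
      (P.MP_ae6ac5_an.AA (P.MP_ae6ac5_an.pr 0 i P.MP_ae6ac5_an.Heis.x)
        (P.MP_ae6ac5_an.pr 0 i P.MP_ae6ac5_an.Heis.y))
      (P.MP_ae6ac5_an.AS (P.MP_ae6ac5_an.pr 0 i P.MP_ae6ac5_an.Heis.x)
        (P.MP_ae6ac5_an.pr 0 i P.MP_ae6ac5_an.Heis.y))
      (fun _ _ => P.MP_ae6ac5_an.mapDomain_aa (P.MP_ae6ac5_an.pr 0 i) _ _)
      (P.MP_ae6ac5_an.AS_coeff _ _)
    rw [P.MP_ae6ac5_an.nu_moment i n, Fin.sum_univ_one]
    congr 1
    exact (congrFun (congrFun (congrFun (hit _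
      (fun k l g => P.MP_ae6ac5_an.one_coeff k l g _) n) 0) 0) 1).symm

end Pool.Agent.S05810
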