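import Pool.Statements.S06229
import Pool.Agent.P.MP_d06606_an.Ek

set_option autoImplicit false
open Pool Pool.MP_d06606_an

namespace Pool.Agent.S06229

/-- For every real Banach space X, if there is a nonzero everywhere Fréchet differentiable real function on X with bounded support, then there is a nonzero Lipschitz C^1 real function on X with bounded support. -/
theorem result :
    ∀ (X : Type) [NormedAddCommGroup X] [NormedSpace ℝ X] [CompleteSpace X],
      (∃ f : X → ℝ, Differentiable ℝ f ∧ (∃ x, f x ≠ 0) ∧
          Bornology.IsBounded (Function.support f)) →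
      (∃ g : X → ℝ, ContDiff ℝ 1 g ∧ (∃ K, LipschitzWith K g) ∧ (∃ x, g x ≠ 0) ∧
          Bornology.IsBounded (Function.support g)) := by
  rintro X _ _ _ ⟨f, hf, ⟨x₀, h₀⟩, hs⟩
  exact Pool.Agent.P.MP_d06606_an.bump_of_dent (Pool.Agent.P.MP_d06606_an.dent_of_bump
    Pool.Agent.P.MP_d06606_an.evB_cont Pool.Agent.P.MP_d06606_an.evB_le hf h₀ hs)

end Pool.Agent.S06229
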