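import Pool.Statements.S06274
import Pool.Agent.P.MP_d4a912_an.Bidual

set_option autoImplicit false
open Filter Topology
open Pool Pool.MP_d4a912_an

namespace Pool.Agent.S06274

/-- The negation of the preceding statement: For every real Banach space X: unit-sphere sequences with norm of x_n+x_m tending to 2 are always weakly Cauchy in X iff the same holds in the bidual X** with w*-Cauchy (tested on X*) in place of weakly Cauchy. -/
theorem result :
    ¬ (∀ (X : Type) [NormedAddCommGroup X] [NormedSpace ℝ X] [CompleteSpace X],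
      (∀ x : ℕ → X, (∀ n, ‖x n‖ = 1) →
        Tendsto (fun p : ℕ × ℕ => ‖x p.1 + x p.2‖) atTop (𝓝 2) →
        ∀ f : X →L[ℝ] ℝ, CauchySeq (fun n => f (x n))) ↔
      (∀ F : ℕ → ((X →L[ℝ] ℝ) →L[ℝ] ℝ), (∀ n, ‖F n‖ = 1) →
        Tendsto (fun p : ℕ × ℕ => ‖F p.1 + F p.2‖) atTop (𝓝 2) →
        ∀ f : X →L[ℝ] ℝ, CauchySeq (fun n => F n f))) := by
  intro h
  exact Pool.Agent.P.MP_d4a912_an.not_wstar
    ((h Pool.Agent.P.MP_d4a912_an.X).mp Pool.Agent.P.MP_d4a912_an.wcr)

end Pool.Agent.S06274
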