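import Pool.Statements.S06447
import Pool.Agent.P.MP_e0f0cb_an.Final

set_option autoImplicit false
open Pool Pool.MP_e0f0cb_an

namespace Pool.Agent.S06447

/-- For every complex Banach algebra A, every linear derivation D (not assumed continuous), and every maximal modular left ideal L, if xA lies in L then D(x)A lies in L, i.e. D maps each primitive ideal into itself. -/
theorem result :
    ∀ (A : Type) [NonUnitalNormedRing A] [NormedSpace ℂ A] [IsScalarTower ℂ A A]
      [SMulCommClass ℂ A A] [CompleteSpace A] (D : A →ₗ[ℂ] A),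
      (∀ a b : A, D (a * b) = D a * b + a * D b) →
      ∀ L : Submodule ℂ A,
        (∀ a x : A, x ∈ L → a * x ∈ L) →
        (∃ u : A, ∀ a : A, a - a * u ∈ L) →
        L ≠ ⊤ →
        (∀ L' : Submodule ℂ A, (∀ a x : A, x ∈ L' → a * x ∈ L') → L ≤ L' → L' = L ∨ L' = ⊤) →
        ∀ x : A, (∀ a : A, x * a ∈ L) → ∀ a : A, D x * a ∈ L := by
  intro A _ _ _ _ _ D hD L hL ⟨u, hu⟩ hne hmax x hx a
  exact Pool.Agent.P.MP_e0f0cb_an.final_thm D hD L hL u hu hne hmax x hx a

end Pool.Agent.S06447
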