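import Pool.Statements.S06513
import Pool.Agent.P.MP_e711b0_an.Main

set_option autoImplicit false
open scoped Manifold
open Pool Pool.MP_e711b0_an

namespace Pool.Agent.S06513

/-- For any holomorphic fibre bundle E → B with fibre Y of complex manifolds, E nonempty: if E has the convex approximation (Oka) property, then both B and Y have it. -/
theorem result :
    ∀ (r q p : ℕ) (E : Type) [TopologicalSpace E] [T2Space E] [SecondCountableTopology E]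
      [ChartedSpace (EuclideanSpace ℂ (Fin r)) E]
      [IsManifold 𝓘(ℂ, EuclideanSpace ℂ (Fin r)) ⊤ E] [Nonempty E]
      (B : Type) [TopologicalSpace B] [T2Space B] [SecondCountableTopology B]
      [ChartedSpace (EuclideanSpace ℂ (Fin q)) B]
      [IsManifold 𝓘(ℂ, EuclideanSpace ℂ (Fin q)) ⊤ B]
      (Y : Type) [TopologicalSpace Y] [T2Space Y] [SecondCountableTopology Y]
      [ChartedSpace (EuclideanSpace ℂ (Fin p)) Y]
      [IsManifold 𝓘(ℂ, EuclideanSpace ℂ (Fin p)) ⊤ Y]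
      (π : E → B),
      MDifferentiable 𝓘(ℂ, EuclideanSpace ℂ (Fin r)) 𝓘(ℂ, EuclideanSpace ℂ (Fin q)) π →
      (∀ b : B, ∃ U : Set B, IsOpen U ∧ b ∈ U ∧
        ∃ (φ : E → B × Y) (ψ : B × Y → E),
          MDifferentiableOn 𝓘(ℂ, EuclideanSpace ℂ (Fin r))
            ((𝓘(ℂ, EuclideanSpace ℂ (Fin q))).prod 𝓘(ℂ, EuclideanSpace ℂ (Fin p))) φ (π ⁻¹' U) ∧
          MDifferentiableOn ((𝓘(ℂ, EuclideanSpace ℂ (Fin q))).prod 𝓘(ℂ, EuclideanSpace ℂ (Fin p)))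
            𝓘(ℂ, EuclideanSpace ℂ (Fin r)) ψ (U ×ˢ Set.univ) ∧
          (∀ e ∈ π ⁻¹' U, ψ (φ e) = e ∧ (φ e).1 = π e) ∧
          (∀ x ∈ U ×ˢ (Set.univ : Set Y), π (ψ x) = x.1 ∧ φ (ψ x) = x)) →
      (∀ (k : ℕ) (K U : Set (EuclideanSpace ℂ (Fin k))) (f : EuclideanSpace ℂ (Fin k) → E)
          (W : Set (EuclideanSpace ℂ (Fin k) × E)),
          IsCompact K → Convex ℝ K → IsOpen U → K ⊆ U →
          MDifferentiableOn 𝓘(ℂ, EuclideanSpace ℂ (Fin k)) 𝓘(ℂ, EuclideanSpace ℂ (Fin r)) f U →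
          IsOpen W → (∀ z ∈ K, (z, f z) ∈ W) →
          ∃ g : EuclideanSpace ℂ (Fin k) → E,
            MDifferentiable 𝓘(ℂ, EuclideanSpace ℂ (Fin k)) 𝓘(ℂ, EuclideanSpace ℂ (Fin r)) g ∧
            ∀ z ∈ K, (z, g z) ∈ W) →
      (∀ (k : ℕ) (K U : Set (EuclideanSpace ℂ (Fin k))) (f : EuclideanSpace ℂ (Fin k) → B)
          (W : Set (EuclideanSpace ℂ (Fin k) × B)),
          IsCompact K → Convex ℝ K → IsOpen U → K ⊆ U →
          MDifferentiableOn 𝓘(ℂ, EuclideanSpace ℂ (Fin k)) 𝓘(ℂ, EuclideanSpace ℂ (Fin q)) f U →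
          IsOpen W → (∀ z ∈ K, (z, f z) ∈ W) →
          ∃ g : EuclideanSpace ℂ (Fin k) → B,
            MDifferentiable 𝓘(ℂ, EuclideanSpace ℂ (Fin k)) 𝓘(ℂ, EuclideanSpace ℂ (Fin q)) g ∧
            ∀ z ∈ K, (z, g z) ∈ W) ∧
      (∀ (k : ℕ) (K U : Set (EuclideanSpace ℂ (Fin k))) (f : EuclideanSpace ℂ (Fin k) → Y)
          (W : Set (EuclideanSpace ℂ (Fin k) × Y)),
          IsCompact K → Convex ℝ K → IsOpen U → K ⊆ U →
          MDifferentiableOn 𝓘(ℂ, EuclideanSpace ℂ (Fin k)) 𝓘(ℂ, EuclideanSpace ℂ (Fin p)) f U →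
          IsOpen W → (∀ z ∈ K, (z, f z) ∈ W) →
          ∃ g : EuclideanSpace ℂ (Fin k) → Y,
            MDifferentiable 𝓘(ℂ, EuclideanSpace ℂ (Fin k)) 𝓘(ℂ, EuclideanSpace ℂ (Fin p)) g ∧
            ∀ z ∈ K, (z, g z) ∈ W) := by
  intro r q p E _ _ _ _ _ _ B _ _ _ _ _ Y _ _ _ _ _ π hπ htriv hE
  choose U hU hmem φ ψ h1 h2 h3 h4 using htriv
  have h : Pool.Agent.P.MP_e711b0_an.Triv (EuclideanSpace ℂ (Fin p)) (EuclideanSpace ℂ (Fin r))
      (EuclideanSpace ℂ (Fin q)) π U φ ψ := ⟨hπ, hU, hmem, h1, h2, h3, h4⟩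
  have : Nonempty Y := ⟨(φ (π (Classical.arbitrary E)) (Classical.arbitrary E)).2⟩
  exact ⟨fun k => h.cap_base (hE k),
    fun k => Pool.Agent.P.MP_e711b0_an.cap_of_step (h.step_fibre (hE k))⟩

end Pool.Agent.S06513
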