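import Pool.Statements.S06570
import Pool.Agent.P.MP_eba2d2_an.Final
import Pool.Agent.P.MP_eba2d2_an.Oka

set_option autoImplicit false
open scoped Manifold
open Pool Pool.MP_eba2d2_an

namespace Pool.Agent.S06570

/-- The negation of the preceding statement: Every contractible complex manifold of dimension m that is Stein (holomorphically convex and separable) and Oka (convex approximation property) is biholomorphic to ℂ^m. -/
theorem result :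
    ¬ (∀ (m : ℕ) (X : Type) [TopologicalSpace X] [T2Space X] [SecondCountableTopology X]
    [ChartedSpace (EuclideanSpace ℂ (Fin m)) X]
    [IsManifold 𝓘(ℂ, EuclideanSpace ℂ (Fin m)) (⊤ : WithTop ℕ∞) X],
    ContractibleSpace X →
    (∀ K : Set X, IsCompact K →
      IsCompact {x : X | ∀ f : X → ℂ,
        MDifferentiable 𝓘(ℂ, EuclideanSpace ℂ (Fin m)) 𝓘(ℂ, ℂ) f →
        ∀ c : ℝ, (∀ y ∈ K, ‖f y‖ ≤ c) → ‖f x‖ ≤ c}) →
    (∀ x y : X, x ≠ y → ∃ f : X → ℂ,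
      MDifferentiable 𝓘(ℂ, EuclideanSpace ℂ (Fin m)) 𝓘(ℂ, ℂ) f ∧ f x ≠ f y) →
    (∀ (n : ℕ) (K : Set (EuclideanSpace ℂ (Fin n))), IsCompact K → Convex ℝ K →
      ∀ (U : Set (EuclideanSpace ℂ (Fin n))), IsOpen U → K ⊆ U →
      ∀ f : EuclideanSpace ℂ (Fin n) → X,
        MDifferentiableOn 𝓘(ℂ, EuclideanSpace ℂ (Fin n)) 𝓘(ℂ, EuclideanSpace ℂ (Fin m)) f U →
        ∀ Ω : Set (EuclideanSpace ℂ (Fin n) × X), IsOpen Ω → (∀ z ∈ K, (z, f z) ∈ Ω) →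
          ∃ g : EuclideanSpace ℂ (Fin n) → X,
            MDifferentiable 𝓘(ℂ, EuclideanSpace ℂ (Fin n)) 𝓘(ℂ, EuclideanSpace ℂ (Fin m)) g ∧
            ∀ z ∈ K, (z, g z) ∈ Ω) →
    ∃ φ : X ≃ₜ EuclideanSpace ℂ (Fin m),
      MDifferentiable 𝓘(ℂ, EuclideanSpace ℂ (Fin m)) 𝓘(ℂ, EuclideanSpace ℂ (Fin m))
        (φ : X → EuclideanSpace ℂ (Fin m)) ∧
      MDifferentiable 𝓘(ℂ, EuclideanSpace ℂ (Fin m)) 𝓘(ℂ, EuclideanSpace ℂ (Fin m))
        (φ.symm : EuclideanSpace ℂ (Fin m) → X)) := by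
  exact Pool.Agent.P.MP_eba2d2_an.main_of_cap (fun K U hK hc hU hKU x y z hx hy hz h e he =>
    Pool.Agent.P.MP_eba2d2_an.cap K U hK hc hU hKU x y z hx hy hz h e he)

end Pool.Agent.S06570
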