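import Pool.Statements.S06769
import Pool.Agent.P.MP_f97ab1_an.Main

set_option autoImplicit false
open MeasureTheory Filter Topology
open Pool Pool.MP_f97ab1_an

namespace Pool.Agent.S06769

/-- The subspace of L^1 of the infinite torus made of functions with Fourier spectrum in nonnegative multi-indices (i.e. the Hardy space H^1 of Dirichlet series) has a Schauder basis: each element has a unique norm-convergent expansion in a fixed sequence. -/
theorem result :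
    ∀ μ : Measure (ℕ → AddCircle (1:ℝ)),
      μ = Measure.infinitePi (fun _ : ℕ => (AddCircle.haarAddCircle : Measure (AddCircle (1:ℝ)))) →
      ∃ e : ℕ → Lp ℂ 1 μ,
        (∀ n, ∀ k : ℕ →₀ ℤ, (∃ i, k i < 0) →
            ∫ z, (∏ i ∈ k.support, (fourier (-(k i)) (z i) : ℂ)) * (e n : (ℕ → AddCircle (1:ℝ)) → ℂ) z ∂μ = 0) ∧
        ∀ f : Lp ℂ 1 μ,
          (∀ k : ℕ →₀ ℤ, (∃ i, k i < 0) →
            ∫ z, (∏ i ∈ k.support, (fourier (-(k i)) (z i) : ℂ)) * (f : (ℕ → AddCircle (1:ℝ)) → ℂ) z ∂μ = 0) →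
          ∃! c : ℕ → ℂ,
            Tendsto (fun N : ℕ => ∑ n ∈ Finset.range N, c n • e n) atTop (𝓝 f) := by
  intro μ hμ
  obtain rfl : μ = Pool.Agent.P.MP_f97ab1_an.mu := hμ
  obtain ⟨e, he1, he2⟩ := Pool.Agent.P.MP_f97ab1_an.H1_basis
  have hk : ∀ k : ℕ →₀ ℤ, (∃ i, k i < 0) ↔ ¬ 0 ≤ k := by
    intro k
    rw [Finsupp.le_def]
    simp
  simp only [Pool.Agent.P.MP_f97ab1_an.chi_neg_eq_prod, hk]
  exact ⟨e, he1, he2⟩

end Pool.Agent.S06769
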