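import Pool.Statements.S06772
import Pool.Agent.P.MP_f981b0_an.IS.All

set_option autoImplicit false
open Pool Pool.MP_f981b0_an

namespace Pool.Agent.S06772

/-- The negation of the preceding statement: Every bounded linear operator on an infinite-dimensional separable reflexive complex Banach space has a closed invariant subspace different from {0} and from the whole space. -/
theorem result :
    ¬ (∀ (E : Type) [NormedAddCommGroup E] [NormedSpace ℂ E] [CompleteSpace E]
      [TopologicalSpace.SeparableSpace E],
      ¬ FiniteDimensional ℂ E →
      Function.Surjective (NormedSpace.inclusionInDoubleDual ℂ E) →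
      ∀ T : E →L[ℂ] E,
        ∃ M : Submodule ℂ E,
          IsClosed (M : Set E) ∧ M ≠ ⊥ ∧ M ≠ ⊤ ∧ ∀ x ∈ M, T x ∈ M) := by
  exact Pool.Agent.IS.main.1

end Pool.Agent.S06772
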