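import Pool.Statements.S06877
import Pool.Agent.P.MP_012ca0_co.Main

set_option autoImplicit false
open Pool Pool.MP_012ca0_co

namespace Pool.Agent.S06877

/-- For every odd n ≥ 3 there is a tournament on n vertices in which every vertex has out-degree (n−1)/2 and which has at least (n−1)!/2^n directed Hamilton cycles. -/
theorem result :
    ∀ n : ℕ, Odd n → 3 ≤ n →
      ∃ adj : Fin n → Fin n → Prop,
        (∀ v, ¬ adj v v) ∧
        (∀ v w, v ≠ w → (adj v w ↔ ¬ adj w v)) ∧
        (∀ v, {w : Fin n | adj v w}.ncard = (n - 1) / 2) ∧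
        ((Nat.factorial (n - 1) : ℝ) / (2 : ℝ) ^ n ≤
          (({c : Equiv.Perm (Fin n) |
              c.IsCycle ∧ c.support = Finset.univ ∧ ∀ v, adj v (c v)}.ncard : ℕ) : ℝ)) :=
  fun n hn h3 => Pool.Agent.P.MP_012ca0_co.main n hn h3

end Pool.Agent.S06877
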