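import Pool.Statements.S07047
import Pool.Agent.P.MP_08fd93_co.FA.Pit0

set_option autoImplicit false
open Pool Pool.MP_08fd93_co

namespace Pool.Agent.S07047

/-- Every finite simple graph that embeds in the torus (distinct vertex points, edges as arcs meeting only at shared endpoints) has a 4-colouring in which each vertex has at most one neighbour of its own colour. -/
theorem result :
    ∀ (V : Type) [Fintype V] (G : SimpleGraph V),
      (∃ (p : V → AddCircle (1:ℝ) × AddCircle (1:ℝ))
          (γ : ∀ u v : V, G.Adj u v → Path (p u) (p v)),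
        Function.Injective p ∧
        (∀ (u v : V) (h : G.Adj u v), Function.Injective ⇑(γ u v h)) ∧
        (∀ (u v : V) (h : G.Adj u v) (w : V) (t : unitInterval),
          0 < (t : ℝ) → (t : ℝ) < 1 → γ u v h t ≠ p w) ∧
        (∀ (u v : V) (h : G.Adj u v) (u' v' : V) (h' : G.Adj u' v')
            (s t : unitInterval),
          Sym2.mk (u, v) ≠ Sym2.mk (u', v') →
          0 < (s : ℝ) → (s : ℝ) < 1 → 0 < (t : ℝ) → (t : ℝ) < 1 →
          γ u v h s ≠ γ u' v' h' t)) →
      ∃ c : V → Fin 4, ∀ v w₁ w₂ : V,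
        G.Adj v w₁ → G.Adj v w₂ → c w₁ = c v → c w₂ = c v → w₁ = w₂ :=
  Pool.Agent.P.MP_08fd93_co.FZ.frozen_of Pool.Agent.P.MP_08fd93_co.FA.core

end Pool.Agent.S07047
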