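import Pool.Statements.S07719
import Pool.Agent.P.MP_25e1d2_co.Main

set_option autoImplicit false
open Pool Pool.MP_25e1d2_co

namespace Pool.Agent.S07719

/-- For every finite colouring of the naturals there is a sequence of positive integers y_0, y_1, ... such that all nonempty finite sums of distinct terms, and all sums y_n + 2y_{n+1} + y_{n+2}, get one and the same colour. -/
theorem result :
    ∀ (k : ℕ) (c : ℕ → Fin k), ∃ y : ℕ → ℕ, (∀ n, 0 < y n) ∧
      ∃ col : Fin k,
        (∀ s : Finset ℕ, s.Nonempty → c (∑ i ∈ s, y i) = col) ∧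
        (∀ n : ℕ, c (y n + 2 * y (n + 1) + y (n + 2)) = col) :=
  Pool.Agent.P.MP_25e1d2_co.main

end Pool.Agent.S07719
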