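import Pool.Statements.S07751
import Pool.Agent.P.MP_27dab6_co.Koebe

set_option autoImplicit false
open Pool Pool.MP_27dab6_co

namespace Pool.Agent.S07751

/-- Every finite graph with a crossing-free straight-line drawing (planar) that is Laman (2n−3 edges, every k≥2 vertices span at most 2k−3 edges) is the exact contact graph of a packing of disks whose radii are algebraically independent over ℚ. -/
theorem result :
    ∀ (V : Type) [Fintype V] [DecidableEq V] (G : SimpleGraph V) [DecidableRel G.Adj],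
      (∃ p : V → EuclideanSpace ℝ (Fin 2), Function.Injective p ∧
        ∀ a b x y : V, G.Adj a b → G.Adj x y → Sym2.mk (a, b) ≠ Sym2.mk (x, y) →
          segment ℝ (p a) (p b) ∩ segment ℝ (p x) (p y) ⊆
            ({p a, p b} : Set (EuclideanSpace ℝ (Fin 2))) ∩ {p x, p y}) →
      ((Finset.univ ×ˢ Finset.univ).filter (fun q : V × V => G.Adj q.1 q.2)).card + 6
          = 4 * Fintype.card V →
      (∀ S : Finset V, 2 ≤ S.card →
          ((S ×ˢ S).filter (fun q : V × V => G.Adj q.1 q.2)).card + 6 ≤ 4 * S.card) →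
      ∃ (c : V → EuclideanSpace ℝ (Fin 2)) (r : V → ℝ),
        (∀ v, 0 < r v) ∧ AlgebraicIndependent ℚ r ∧
        ∀ u v : V, u ≠ v →
          r u + r v ≤ dist (c u) (c v) ∧ (G.Adj u v ↔ dist (c u) (c v) = r u + r v) := by
  intro V _ _ G _ ⟨p, hp, h⟩
  refine Pool.Agent.P.MP_27dab6_co.planar_laman V G ⟨p, hp, fun a b x y e e' n => ?_⟩
  refine h a b x y e e' fun k => n ?_
  obtain ⟨rfl, rfl⟩ := Prod.mk.inj (Sym2.congr_left.1 (congrFun k (a, b)))
  rfl

end Pool.Agent.S07751
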