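import Pool.Statements.S07817
import Pool.Agent.P.MP_2b0d5b_co.Main

set_option autoImplicit false
open Pool Pool.MP_2b0d5b_co

namespace Pool.Agent.S07817

/-- There is c > 0 such that for every N some n ≥ N has a graph on n vertices with chromatic number 5, where deleting any edge drops the chromatic number below 5, and every vertex has degree at least c·n. -/
theorem result :
    ∃ c : ℝ, 0 < c ∧ ∀ N : ℕ, ∃ n : ℕ, N ≤ n ∧
      ∃ G : SimpleGraph (Fin n),
        G.chromaticNumber = 5 ∧
        (∀ e ∈ G.edgeSet, (G.deleteEdges {e}).chromaticNumber < 5) ∧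
        ∀ v : Fin n, c * (n : ℝ) ≤ ((G.neighborSet v).ncard : ℝ) :=
  Pool.Agent.P.MP_2b0d5b_co.main

end Pool.Agent.S07817
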