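import Pool.Statements.S07944
import Pool.Agent.P.MP_312c66_co.Main

set_option autoImplicit false
open Pool Pool.MP_312c66_co

namespace Pool.Agent.S07944

/-- The negation of the preceding statement: For r≥4, q≥2, ε>0 there are D,c>0 such that for all large k and all n<exp(exp(c k^D)), some q-colouring of the r-sets of [n] has no set S of size ≥k where colour 1 has average degree ρ_1·C(∣S∣-1,r-1) with ρ_1=1, or another colour has average degree ε/(q-1)·C(∣S∣-1,r-1). -/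
theorem result :
    ¬ (∀ r : ℕ, 4 ≤ r → ∀ q : ℕ, 2 ≤ q → ∀ ε : ℝ, 0 < ε →
    ∃ D : ℝ, 0 < D ∧ ∃ c : ℝ, 0 < c ∧ ∃ K : ℕ, ∀ k : ℕ, K ≤ k →
      ∀ n : ℕ, (n : ℝ) < Real.exp (Real.exp (c * (k : ℝ) ^ D)) →
        ∃ φ : Finset (Fin n) → Fin q, ∀ S : Finset (Fin n), k ≤ S.card → ∀ j : Fin q,
          ((r : ℝ) * (((S.powersetCard r).filter (fun e => φ e = j)).card : ℝ)) / (S.card : ℝ) <
            (if j.val = 0 then (1 : ℝ) else ε / ((q : ℝ) - 1)) *
              (((S.card - 1).choose (r - 1) : ℕ) : ℝ)) := by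
  intro h
  obtain ⟨D, hD, c, hc, K, hK⟩ := h 4 le_rfl 2 le_rfl (3 / 32) (by norm_num)
  obtain ⟨k, hkK, hk4, hlt⟩ := Pool.Agent.P.MP_312c66_co.growth D c hD hc K
  obtain ⟨φ, hφ⟩ := hK k hkK _ hlt
  rcases Pool.Agent.P.MP_312c66_co.dichotomy k hk4 _ rfl (fun e => φ e = 1) with
    ⟨S, hS, hno⟩ | ⟨S, hS1, hS2, hS3⟩
  · have h0 := hφ S hS.ge 0
    have hall : (S.powersetCard 4).filter (fun e => φ e = 0) = S.powersetCard 4 := by
      apply Finset.filter_true_of_mem
      intro e he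
      obtain ⟨he1, he2⟩ := Finset.mem_powersetCard.mp he
      have := hno e he1 he2
      omega
    rw [hall, Finset.card_powersetCard, hS] at h0
    obtain ⟨m, rfl⟩ : ∃ m, k = m + 1 := ⟨k - 1, by omega⟩
    have h1 := Nat.add_one_mul_choose_eq m 3
    have h2 : ((m : ℝ) + 1) * (m.choose 3 : ℝ) = ((m + 1).choose 4 : ℝ) * 4 := by
      exact_mod_cast h1
    rw [div_lt_iff₀ (by positivity)] at h0
    simp only [Fin.val_zero, if_true, Nat.add_sub_cancel] at h0
    push_cast at h0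
    norm_num at h0
    linarith
  · have h0 := hφ S hS1 1
    have hpos : (0 : ℝ) < (S.card : ℝ) := by exact_mod_cast (by omega : 0 < S.card)
    rw [div_lt_iff₀ hpos] at h0
    have h1 : (k : ℝ) ^ 4 ≤ (((S.powersetCard 4).filter (fun e => φ e = 1)).card : ℝ) := by
      have : ((k ^ 4 : ℕ) : ℝ) ≤ (((S.powersetCard 4).filter (fun e => φ e = 1)).card : ℝ) := by
        exact_mod_cast (by convert hS3)
      exact_mod_cast this
    have h2 : (((S.card - 1).choose 3 : ℕ) : ℝ) ≤ ((S.card - 1 : ℕ) : ℝ) ^ 3 / (Nat.factorial 3 : ℝ) :=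
      Nat.choose_le_pow_div 3 _
    have h3 : ((S.card - 1 : ℕ) : ℝ) ≤ 4 * k := by exact_mod_cast (by omega : S.card - 1 ≤ 4 * k)
    have h4 : (S.card : ℝ) ≤ 4 * k := by exact_mod_cast hS2
    have h5 : (((S.card - 1).choose 3 : ℕ) : ℝ) ≤ (4 * k) ^ 3 / 6 := by
      refine h2.trans ?_
      have : (Nat.factorial 3 : ℝ) = 6 := by norm_num [Nat.factorial]
      rw [this]
      gcongr
    have h6 : (((S.card - 1).choose 3 : ℕ) : ℝ) * (S.card : ℝ) ≤ ((4 * k) ^ 3 / 6) * (4 * k) := by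
      gcongr
    norm_num at h0
    nlinarith

end Pool.Agent.S07944
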