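import Pool.Statements.S08090
import Pool.Agent.P.MP_365d4e_co.Pack

set_option autoImplicit false
open Pool Pool.MP_365d4e_co

namespace Pool.Agent.S08090

open Pool.Agent.P.MP_365d4e_co

/-- The negation of the preceding statement: In every dimension n ≥ 1, each convex body K has a packing by congruent copies, each copy inside its own tile of a tiling by congruent copies of one compact tile, whose upper density equals the supremum of upper densities of all packings of K. -/
theorem result :
    ¬ (∀ (n : ℕ), 1 ≤ n → ∀ (K : Set (EuclideanSpace ℝ (Fin n))),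
      IsCompact K → Convex ℝ K → (interior K).Nonempty →
      ∃ (e : ℕ → (EuclideanSpace ℝ (Fin n) ≃ᵢ EuclideanSpace ℝ (Fin n)))
        (T : Set (EuclideanSpace ℝ (Fin n)))
        (f : ℕ → (EuclideanSpace ℝ (Fin n) ≃ᵢ EuclideanSpace ℝ (Fin n))),
        (Pairwise fun i j => Disjoint (interior (e i '' K)) (interior (e j '' K))) ∧
        IsCompact T ∧
        (⋃ i, f i '' T) = Set.univ ∧
        (Pairwise fun i j => Disjoint (interior (f i '' T)) (interior (f j '' T))) ∧
        (∀ i, e i '' K ⊆ f i '' T) ∧
        Filter.limsup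
            (fun R : ℝ =>
              MeasureTheory.volume ((⋃ i, e i '' K) ∩ Metric.ball (0 : EuclideanSpace ℝ (Fin n)) R) /
                MeasureTheory.volume (Metric.ball (0 : EuclideanSpace ℝ (Fin n)) R))
            Filter.atTop
          = ⨆ (g : ℕ → (EuclideanSpace ℝ (Fin n) ≃ᵢ EuclideanSpace ℝ (Fin n)))
              (_ : Pairwise fun i j => Disjoint (interior (g i '' K)) (interior (g j '' K))),
              Filter.limsup
                (fun R : ℝ =>
                  MeasureTheory.volume ((⋃ i, g i '' K) ∩ Metric.ball (0 : EuclideanSpace ℝ (Fin n)) R) /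
                    MeasureTheory.volume (Metric.ball (0 : EuclideanSpace ℝ (Fin n)) R))
                Filter.atTop) := by
  intro h
  let L : ℂ ≃ₗᵢ[ℝ] EuclideanSpace ℝ (Fin 2) := Complex.orthonormalBasisOneI.repr
  let U : ℂ ≃ᵢ EuclideanSpace ℝ (Fin 2) := L.toIsometryEquiv
  have hU0 : U 0 = 0 := L.map_zero
  have hvol : ∀ S : Set ℂ, MeasureTheory.volume (U '' S) = MeasureTheory.volume S := by
    intro S
    have := L.symm.measurePreserving.measure_preimage_emb
      L.symm.toHomeomorph.measurableEmbedding S
    rw [← this]
    congr 1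
    exact U.toEquiv.image_eq_preimage_symm S
  have hint : ∀ S : Set ℂ, interior (U '' S) = U '' interior S := fun S =>
    (U.toHomeomorph.image_interior S).symm
  have hdj : ∀ S S' : Set ℂ, Disjoint (interior (U '' S)) (interior (U '' S')) ↔
      Disjoint (interior S) (interior S') := fun S S' => by
    rw [hint, hint, Set.disjoint_image_iff U.injective]
  have hdens : ∀ S : ℕ → Set ℂ, Filter.limsup
      (fun R : ℝ => MeasureTheory.volume ((⋃ i, U '' S i) ∩
        Metric.ball (0 : EuclideanSpace ℝ (Fin 2)) R) /
        MeasureTheory.volume (Metric.ball (0 : EuclideanSpace ℝ (Fin 2)) R)) Filter.atTop =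
      dens (⋃ i, S i) := by
    intro S
    unfold dens
    congr 1
    funext R
    rw [← hU0, ← U.image_ball, ← Set.image_iUnion, ← Set.image_inter U.injective, hvol, hvol]
  obtain ⟨e, T, f, -, hT, hcov, hdis, hsub, hlim⟩ := h 2 (by norm_num) (U '' K)
    (isCompact_K.image U.continuous) (convex_K.linear_image L.toLinearEquiv.toLinearMap)
    (by rw [hint, interior_K]; exact ⟨_, o, o_mem_Ko, rfl⟩)
  obtain ⟨g, hg, hgd⟩ := packC
  have down : ∀ (u : EuclideanSpace ℝ (Fin 2) ≃ᵢ EuclideanSpace ℝ (Fin 2)) (S : Set ℂ),
      u '' (U '' S) = U '' ((U.trans u).trans U.symm '' S) := fun u S => by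
    simp only [Set.image_image]; simp
  have up : ∀ (u : Iso) (S : Set ℂ),
      (U.symm.trans u).trans U '' (U '' S) = U '' (u '' S) := fun u S => by
    simp only [Set.image_image]; simp
  obtain ⟨T, rfl⟩ := U.surjective.image_surjective T
  refine mainC (e := fun i => (U.trans (e i)).trans U.symm)
    (f := fun i => (U.trans (f i)).trans U.symm) (T := T)
    (U.toHomeomorph.isCompact_image.1 hT) (fun z => ?_) (fun i j hij => ?_) (fun i => ?_) ?_
  · have : U z ∈ ⋃ i, f i '' (U '' T) := hcov ▸ Set.mem_univ _
    obtain ⟨i, hi⟩ := Set.mem_iUnion.1 this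
    rw [down] at hi
    exact ⟨i, (U.injective.mem_set_image).1 hi⟩
  · have := hdis hij
    beta_reduce at this
    rwa [down (f i), down (f j), hdj] at this
  · have := hsub i
    rwa [down (e i), down (f i), Set.image_subset_image_iff U.injective] at this
  · simp only [down] at hlim
    rw [← hdens, hlim]
    refine hgd.trans (le_iSup₂_of_le (fun i => (U.symm.trans (g i)).trans U) ?_ ?_)
    · intro i j hij
      have := (hdj _ _).2 (hg hij)
      simpa only [← down, up] using this
    · simp only [← down, up]
      rw [hdens]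

end Pool.Agent.S08090
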