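import Pool.Statements.S08229
import Pool.Agent.P.MP_3c7b76_co.G.KAll

set_option autoImplicit false
open Pool Pool.MP_3c7b76_co

namespace Pool.Agent.S08229

/-- For any n points in the plane with no three collinear and any graph on them drawn with straight segments, having m edges, some line meets at least m^2/n^2 of the edge segments. -/
theorem result :
  ∀ (n : ℕ) (p : Fin n → EuclideanSpace ℝ (Fin 2)) (G : SimpleGraph (Fin n)),
    Function.Injective p →
    (∀ i j k : Fin n, i ≠ j → j ≠ k → i ≠ k →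
      ¬ Collinear ℝ ({p i, p j, p k} : Set (EuclideanSpace ℝ (Fin 2)))) →
    ∃ L : AffineSubspace ℝ (EuclideanSpace ℝ (Fin 2)),
      Module.finrank ℝ L.direction = 1 ∧
      ((G.edgeSet.ncard : ℝ) ^ 2 / (n : ℝ) ^ 2 ≤
        (({q : Fin n × Fin n | q.1 < q.2 ∧ G.Adj q.1 q.2 ∧
            ((L : Set (EuclideanSpace ℝ (Fin 2))) ∩ segment ℝ (p q.1) (p q.2)).Nonempty}).ncard : ℝ)) := by
  exact Pool.Agent.P.MP_3c7b76_co.G.full Pool.Agent.P.MP_3c7b76_co.G.core_full

end Pool.Agent.S08229
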