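import Pool.Statements.S08322
import Pool.Agent.P.MP_3fef46_co.Main

set_option autoImplicit false
open Pool Pool.MP_3fef46_co

namespace Pool.Agent.S08322

/-- The negation of the preceding statement: For all n≥3,a≥1,b≥1,q≥2, disjoint finite R,B⊆ℝ² with ∣R∣=an,∣B∣=bn, no three distinct points collinear, and ns:Fin q→ℕ summing to n with 1≤ns i, 3·ns i≤n, there is a partition P of R∪B into q parts with pairwise disjoint convex hulls and ∣P i∩R∣=a·ns i, ∣P i∩B∣=b·ns i. -/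
theorem result :
    ¬ (∀ (n a b q : ℕ), 3 ≤ n → 1 ≤ a → 1 ≤ b → 2 ≤ q →
      ∀ (R B : Finset (ℝ × ℝ)), Disjoint R B → R.card = a * n → B.card = b * n →
        (∀ x ∈ R ∪ B, ∀ y ∈ R ∪ B, ∀ z ∈ R ∪ B, x ≠ y → x ≠ z → y ≠ z →
            ¬ Collinear ℝ ({x, y, z} : Set (ℝ × ℝ))) →
        ∀ (ns : Fin q → ℕ), (∑ i, ns i = n) → (∀ i, 1 ≤ ns i ∧ 3 * ns i ≤ n) →
          ∃ P : Fin q → Finset (ℝ × ℝ),
            (∀ i, P i ⊆ R ∪ B) ∧
            (∀ i j, i ≠ j → Disjoint (P i) (P j)) ∧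
            (Finset.univ.biUnion P = R ∪ B) ∧
            (∀ i j, i ≠ j →
              Disjoint (convexHull ℝ (P i : Set (ℝ × ℝ))) (convexHull ℝ (P j : Set (ℝ × ℝ)))) ∧
            (∀ i, (P i ∩ R).card = a * ns i ∧ (P i ∩ B).card = b * ns i)) := by
  intro h
  obtain ⟨P, -, hd, -, hconv, hcard⟩ :=
    h 32 1 1 4 (by norm_num) (by norm_num) (by norm_num) (by norm_num)
      Pool.Agent.P.MP_3fef46_co.RR Pool.Agent.P.MP_3fef46_co.BB
      Pool.Agent.P.MP_3fef46_co.RB_disjoint Pool.Agent.P.MP_3fef46_co.RR_card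
      Pool.Agent.P.MP_3fef46_co.BB_card Pool.Agent.P.MP_3fef46_co.general_position
      ![10, 10, 10, 2] (by decide) (by decide)
  exact Pool.Agent.P.MP_3fef46_co.no_partition P hd hconv hcard

end Pool.Agent.S08322
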