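import Pool.Statements.S08329
import Pool.Agent.P.MP_405cad_co.Main

set_option autoImplicit false
open Pool Pool.MP_405cad_co

namespace Pool.Agent.S08329

/-- For every ε>0 there is S such that every monotone Boolean function on {0,1}^n (any n) with maximum sensitivity at least S has total influence (average sensitivity) at most ε times its maximum sensitivity. -/
theorem result :
    ∀ ε : ℝ, 0 < ε → ∃ S : ℕ, ∀ n : ℕ, ∀ f : (Fin n → Bool) → Bool, Monotone f →
      S ≤ (Finset.univ.sup fun x : Fin n → Bool =>
            (Finset.univ.filter fun i : Fin n => f (Function.update x i (!(x i))) ≠ f x).card) →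
      (∑ x : Fin n → Bool,
          ((Finset.univ.filter fun i : Fin n => f (Function.update x i (!(x i))) ≠ f x).card : ℝ))
          / (2 : ℝ) ^ n
        ≤ ε * (((Finset.univ.sup fun x : Fin n → Bool =>
            (Finset.univ.filter fun i : Fin n => f (Function.update x i (!(x i))) ≠ f x).card) : ℕ) : ℝ) := by
  intro ε hε
  obtain ⟨S0, h⟩ := Pool.Agent.P.MP_405cad_co.main hε
  refine ⟨S0, fun n f hf hS => ?_⟩
  have hs : ∀ x, Pool.Agent.P.MP_405cad_co.sens f x
      = ((Finset.univ.filter fun i : Fin n => f (Function.update x i (!(x i))) ≠ f x).card : ℝ) := by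
    intro x
    rw [Finset.card_filter]
    push_cast
    rfl
  have h1 := h n _ f hf (fun x => by
    rw [hs]
    exact_mod_cast Finset.le_sup (f := fun x : Fin n → Bool =>
      (Finset.univ.filter fun i : Fin n => f (Function.update x i (!(x i))) ≠ f x).card)
      (Finset.mem_univ x)) hS
  rw [Pool.Agent.P.MP_405cad_co.II_eq, Pool.Agent.P.MP_405cad_co.E_eq] at h1
  simp_rw [hs] at h1
  exact h1

end Pool.Agent.S08329
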