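import Pool.Statements.S09498
import Pool.Agent.P.MP_73fc50_co.Baire
import Pool.Agent.P.MP_73fc50_co.Local

set_option autoImplicit false
open scoped Pointwise
open Pool Pool.MP_73fc50_co

namespace Pool.Agent.S09498

/-- The negation of the preceding statement: For all large d, all but a meagre set of o-symmetric convex bodies C in R^d have this property: every locally densest packing lattice of C has exactly 2d^2 nonzero lattice points in 2C, i.e. kissing number 2d^2. -/
theorem result :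
    ¬ (∃ d₀ : ℕ, ∀ d : ℕ, d₀ ≤ d →
    IsMeagre {C : {K : ConvexBody (Fin d → ℝ) //
        (∀ x ∈ (K : Set (Fin d → ℝ)), -x ∈ (K : Set (Fin d → ℝ))) ∧
        (interior (K : Set (Fin d → ℝ))).Nonempty} |
      ∃ A : Matrix (Fin d) (Fin d) ℝ,
        A.det ≠ 0 ∧
        (∀ z : Fin d → ℤ, z ≠ 0 →
          A.mulVec (fun i => (z i : ℝ)) ∉ interior ((2:ℝ) • (C.1 : Set (Fin d → ℝ)))) ∧
        (∃ ε : ℝ, 0 < ε ∧ ∀ B : Matrix (Fin d) (Fin d) ℝ,
          (∀ i j, |B i j - A i j| < ε) → B.det ≠ 0 →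
          (∀ z : Fin d → ℤ, z ≠ 0 →
            B.mulVec (fun i => (z i : ℝ)) ∉ interior ((2:ℝ) • (C.1 : Set (Fin d → ℝ)))) →
          |A.det| ≤ |B.det|) ∧
        Set.ncard {v : Fin d → ℝ | v ≠ 0 ∧ v ∈ (2:ℝ) • (C.1 : Set (Fin d → ℝ)) ∧
          ∃ z : Fin d → ℤ, v = A.mulVec (fun i => (z i : ℝ))} ≠ 2 * d ^ 2}) := by
  open Pool.Agent.P.MP_73fc50_co Set Metric in
  rintro ⟨d₀, h⟩
  -- We work in dimension `d = d₀ + 3`, near the ellipsoid `Q ≤ 1 / 2`, for which `ℤ^d` is the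
  -- root lattice `A_d` (perfect and eutactic, with only `d (d + 1)` minimum points).
  have hm := h (d₀ + 3) (by omega)
  generalize hd : d₀ + 3 = d at hm
  have hd3 : 3 ≤ d := by omega
  obtain ⟨η, hη, hloc⟩ := exists_local_min hd3
  let C₀ : ConvexBody (Fin d → ℝ) := ⟨{x | Q x ≤ 1 / 2}, convex_Q_le _, isCompact_Q_le _,
    ⟨0, by simp [Q]⟩⟩
  set η' : ℝ := min η 1 with hη'
  have hη'0 : 0 < η' := lt_min hη one_pos
  have hη'1 : η' ≤ η := min_le_left _ _
  have hη'2 : η' ≤ 1 := min_le_right _ _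
  obtain ⟨δ₁, hδ₁, h₁⟩ := (isCompact_Q_le (d := d) ((2 - η') / 4)).exists_cthickening_subset_open
    (t := {x | Q x < 1 / 2}) (isOpen_lt continuous_Q continuous_const)
    (fun x hx => by simp only [mem_ofPred_eq] at *; linarith)
  obtain ⟨δ₂, hδ₂, h₂⟩ := (isCompact_Q_le (d := d) (1 / 2)).exists_cthickening_subset_open
    (t := {x | Q x < (2 + η) / 4}) (isOpen_lt continuous_Q continuous_const)
    (fun x hx => by simp only [mem_ofPred_eq] at *; linarith)
  set ε : ℝ := min (δ₁ / 2) δ₂ with hε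
  have hε0 : 0 < ε := lt_min (by positivity) hδ₂
  have hε1 : 2 * ε ≤ δ₁ := by have : ε ≤ δ₁ / 2 := min_le_left _ _; linarith
  have hε2 : ε ≤ δ₂ := min_le_right _ _
  have hin : ∀ C : ConvexBody (Fin d → ℝ), dist C C₀ < ε →
      {x | Q x < (2 - η') / 4} ⊆ (C : Set (Fin d → ℝ)) := by
    intro C hC x hx
    apply mem_of_closedBall_subset C C₀ hC
    intro y hy
    have h3 : y ∈ cthickening δ₁ {x : Fin d → ℝ | Q x ≤ (2 - η') / 4} :=
      mem_cthickening_of_dist_le y x δ₁ _ (show Q x ≤ _ from le_of_lt hx)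
        ((mem_closedBall.1 hy).trans hε1)
    exact (show Q y ≤ 1 / 2 from le_of_lt (h₁ h3))
  have hout : ∀ C : ConvexBody (Fin d → ℝ), dist C C₀ < ε →
      ∀ x ∈ (C : Set (Fin d → ℝ)), Q x < (2 + η) / 4 := by
    intro C hC x hx
    obtain ⟨y, hy, hxy⟩ := exists_dist_lt_of_hausdorffDist_lt hx
      (show hausdorffDist (C : Set (Fin d → ℝ)) (C₀ : Set (Fin d → ℝ)) < ε from hC)
      ConvexBody.hausdorffEDist_ne_top
    exact h₂ (mem_cthickening_of_dist_le x y δ₂ _ hy (hxy.le.trans hε2))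
  refine not_isMeagre_ball C₀ (fun x hx => ?_) hε0 (fun C hC => ?_) _ (fun C hC => ?_) hm
  · change Q (-x) ≤ 1 / 2
    rw [Q_neg]; exact hx
  · refine ⟨0, interior_maximal (hin C hC) (isOpen_lt continuous_Q continuous_const) ?_⟩
    simp only [mem_ofPred_eq, Q, Pi.zero_apply]
    simp
    linarith
  · apply hloc
    · intro x hx
      refine interior_maximal (t := {x | Q x < 2 - η}) (fun y hy => ?_)
        (isOpen_lt continuous_Q continuous_const) hx
      refine ⟨(1 / 2 : ℝ) • y, hin C.1 hC ?_, by simp [smul_smul]⟩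
      simp only [mem_ofPred_eq] at *
      rw [Q_smul]
      linarith
    · rintro _ ⟨y, hy, rfl⟩
      have := hout C.1 hC y hy
      beta_reduce
      rw [Q_smul]
      linarith

end Pool.Agent.S09498
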