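import Pool.Statements.S09986
import Pool.Agent.P.MP_8b2bd9_co.Hoff

set_option autoImplicit false
open Pool Pool.MP_8b2bd9_co

namespace Pool.Agent.S09986

/-- The negation of the preceding statement: There is a fixed exponent C such that for every finite set S of positive reals, the plane graph joining points whose distance lies in S has chromatic number at most (∣S∣+1)^C. -/
theorem result :
    ¬ (∃ C : ℕ, ∀ S : Finset ℝ, (∀ s ∈ S, 0 < s) →
      (SimpleGraph.fromRel
          (fun x y : EuclideanSpace ℝ (Fin 2) => dist x y ∈ S)).chromaticNumber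
        ≤ (((S.card + 1) ^ C : ℕ) : ℕ∞)) := by
  classical
  rintro ⟨C, hC⟩
  have h1 := tendsto_pow_const_div_const_pow_of_one_lt C (by norm_num : (1 : ℝ) < 2)
  have h2 := (Filter.tendsto_add_atTop_nat 1).eventually
    (h1.eventually (gt_mem_nhds (by norm_num : (0 : ℝ) < 1 / 4)))
  obtain ⟨r, hr⟩ := h2.exists
  obtain ⟨d, hd, h⟩ := Pool.Agent.P.MP_8b2bd9_co.colour_bound r
  set S : Finset ℝ := (Finset.range r).image fun i => (d i : ℝ) with hS
  have hcard : S.card ≤ r := Finset.card_image_le.trans (by simp)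
  have h3 := hC S (by
    intro s hs
    obtain ⟨i, -, rfl⟩ := Finset.mem_image.1 hs
    exact_mod_cast hd i)
  rw [SimpleGraph.chromaticNumber_le_iff_colorable] at h3
  obtain ⟨c⟩ := h3
  have h4 := h _ (fun x => c (Complex.orthonormalBasisOneI.repr x)) fun x y i hi e => by
    refine c.valid ?_
    rw [SimpleGraph.fromRel_adj]
    have e1 : dist (Complex.orthonormalBasisOneI.repr x) (Complex.orthonormalBasisOneI.repr y) =
        d i := by
      rw [LinearIsometryEquiv.dist_map, dist_eq_norm, e]
    refine ⟨fun h0 => ?_, Or.inl ?_⟩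
    · rw [h0, dist_self] at e1
      have := hd i
      have : (0 : ℝ) < d i := by exact_mod_cast this
      linarith
    · rw [e1]
      exact Finset.mem_image_of_mem _ (Finset.mem_range.2 hi)
  have h5 : (S.card + 1) ^ C ≤ (r + 1) ^ C := Nat.pow_le_pow_left (by omega) C
  have h6 : 2 ^ r + 1 ≤ 2 * (r + 1) ^ C := by omega
  have h7 : (2 : ℝ) ^ r + 1 ≤ 2 * ((r + 1 : ℕ) : ℝ) ^ C := by exact_mod_cast h6
  rw [div_lt_iff₀ (by positivity), pow_succ] at hr
  linarith

end Pool.Agent.S09986
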