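import Pool.Statements.S10865
import Pool.Agent.P.MP_b193f0_co.Main

set_option autoImplicit false
open Pool Pool.MP_b193f0_co

namespace Pool.Agent.S10865

/-- For every finite poset P and every ε>0, for all large n there is N ≤ (1+ε)n such that every blue/red colouring of the subsets of an N-set has a blue induced copy of P or a red induced copy of the Boolean lattice Q_n. -/
theorem result :
    ∀ (P : Type) [PartialOrder P] [Fintype P], ∀ ε : ℝ, 0 < ε →
      ∃ n₀ : ℕ, ∀ n : ℕ, n₀ ≤ n →
        ∃ N : ℕ, (N : ℝ) ≤ (1 + ε) * (n : ℝ) ∧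
          ∀ c : Finset (Fin N) → Bool,
            (∃ f : P ↪o Finset (Fin N), ∀ x : P, c (f x) = true) ∨
            (∃ g : Finset (Fin n) ↪o Finset (Fin N), ∀ x : Finset (Fin n), c (g x) = false) := by
  intro P _ _ ε hε
  exact Pool.Agent.P.MP_b193f0_co.ramsey P ε hε

end Pool.Agent.S10865
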