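import Pool.Statements.S11206
import Pool.Agent.P.MP_c09308_co.Final

set_option autoImplicit false
open Pool Pool.MP_c09308_co

namespace Pool.Agent.S11206

/-- The negation of the preceding statement: For every n ≥ 4, the largest number of vertices covered by a pairwise-intersecting family of n-sets that is 3-colourable but not 2-colourable (no monochromatic edge) is exactly 2·C(2n−4, n−2) + 2n − 4. -/
theorem result :
    ¬ (∀ n : ℕ, 4 ≤ n →
      IsGreatest
        {m : ℕ | ∃ F : Finset (Finset ℕ),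
          (∀ e ∈ F, e.card = n) ∧
          (∀ e ∈ F, ∀ f ∈ F, (e ∩ f).Nonempty) ∧
          (¬ ∃ c : ℕ → Fin 2, ∀ e ∈ F, ∃ x ∈ e, ∃ y ∈ e, c x ≠ c y) ∧
          (∃ c : ℕ → Fin 3, ∀ e ∈ F, ∃ x ∈ e, ∃ y ∈ e, c x ≠ c y) ∧
          m = (F.biUnion id).card}
        (2 * (2 * n - 4).choose (n - 2) + 2 * n - 4)) := by
  intro h
  obtain ⟨N, hN⟩ := Pool.Agent.P.MP_c09308_co.asymptotic_bound (ε := 1 / 2) (by norm_num)
  obtain ⟨n, hn4, hnN⟩ : ∃ n : ℕ, 4 ≤ n ∧ N ≤ n := ⟨max 4 N, le_max_left _ _, le_max_right _ _⟩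
  obtain ⟨F, h1, h2, h3, _, h5⟩ := (h n hn4).1
  have h6 := hN n hnN F h1 h2 (Pool.Agent.P.MP_c09308_co.cover_of_not_colourable h1 h3)
  have h7 := Pool.Agent.P.MP_c09308_co.tuza_gap (n := n) (by omega)
  have h8 : 2 * (2 * n - 4).choose (n - 2) ≤ (F.biUnion id).card := by omega
  have h9 : (2 * ((2 * n - 4).choose (n - 2) : ℝ)) ≤ ((F.biUnion id).card : ℝ) := by
    exact_mod_cast h8
  linarith

end Pool.Agent.S11206
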