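import Pool.Statements.S11902
import Pool.Agent.P.MP_ddd490_co.Graph

set_option autoImplicit false
open Pool Pool.MP_ddd490_co

namespace Pool.Agent.S11902

/-- The negation of the preceding statement: For every k there is α such that every finite α-connected graph (∣V∣>α, removing <α vertices keeps it connected) and every S with ∣S∣≤k admit A⊇S with G[A] and G[Aᶜ] both k-connected (standard definition) and every vertex of A having ≥k neighbours in Aᶜ. -/
theorem result :
    ¬ (∀ k : ℕ, ∃ α : ℕ, ∀ (V : Type) [Fintype V] (G : SimpleGraph V),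
    (α < Nat.card V ∧
      ∀ X : Finset V, X.card < α → (G.induce ((X : Set V)ᶜ)).Connected) →
    ∀ S : Finset V, S.card ≤ k →
    ∃ A : Set V, (S : Set V) ⊆ A ∧
      (k < Nat.card A ∧
        ∀ X : Finset A, X.card < k →
          ((G.induce A).induce ((X : Set A)ᶜ)).Connected) ∧
      (k < Nat.card (Aᶜ : Set V) ∧
        ∀ X : Finset (Aᶜ : Set V), X.card < k →
          ((G.induce (Aᶜ : Set V)).induce ((X : Set (Aᶜ : Set V))ᶜ)).Connected) ∧
      ∀ v ∈ A, k ≤ ((Aᶜ : Set V) ∩ G.neighborSet v).ncard) := by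
  intro h
  obtain ⟨α, hα⟩ := h 3
  have hf : 0 < α + 1 := Nat.succ_pos α
  letI : Fintype (Pool.Agent.P.MP_ddd490_co.Vx (α + 1)) := Fintype.ofFinite _
  obtain ⟨A, hS, hA, hB, hAB⟩ := hα (Pool.Agent.P.MP_ddd490_co.Vx (α + 1))
    (Pool.Agent.P.MP_ddd490_co.Gr (α + 1))
    ⟨lt_trans (Nat.lt_succ_self α) (Pool.Agent.P.MP_ddd490_co.card_big hf),
      fun X hX => Pool.Agent.P.MP_ddd490_co.connected_of_small X (by omega)⟩
    {Sum.inl ⟨[], Nat.zero_le _⟩} (by simp)
  exact Pool.Agent.P.MP_ddd490_co.no_partition A (hS (by simp)) hf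
    (Pool.Agent.P.MP_ddd490_co.min_degree _ A 3 hA.1 hA.2)
    (Pool.Agent.P.MP_ddd490_co.min_degree _ Aᶜ 3 hB.1 hB.2) hAB

end Pool.Agent.S11902
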