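import Pool.Statements.S12205
import Pool.Agent.P.MP_ea54b6_co.Main
import Pool.Agent.P.MP_ea54b6_co.Red

set_option autoImplicit false
open Pool Pool.MP_ea54b6_co

namespace Pool.Agent.S12205

/-- For all 1 ≤ m ≤ c: every edge coloring of the complete graph on ℕ using all c colors has an infinite vertex set whose edges use exactly m colors, if and only if m = 1, m = 2, or m = c. -/
theorem result :
    ∀ c m : ℕ, 1 ≤ m → m ≤ c →
      ((∀ f : ℕ → ℕ → Fin c,
          (∀ k : Fin c, ∃ i j : ℕ, i < j ∧ f i j = k) →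
          ∃ S : Set ℕ, S.Infinite ∧
            ({x : Fin c | ∃ i ∈ S, ∃ j ∈ S, i < j ∧ f i j = x}).ncard = m)
        ↔ (m = 1 ∨ m = 2 ∨ c = m)) := by
  intro c m h1 h2
  constructor
  · intro H
    by_contra hc
    obtain ⟨C, rfl⟩ : ∃ C, c = C + 1 := ⟨c - 1, by omega⟩
    obtain ⟨M, rfl⟩ : ∃ M, m = M + 1 := ⟨m - 1, by omega⟩
    obtain ⟨f, hf, hS⟩ := Pool.Agent.P.MP_ea54b6_co.counter
      (Pool.Agent.P.MP_ea54b6_co.good_all M C (by omega) (by omega))
    obtain ⟨S, h3, h4⟩ := H f hf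
    exact hS S h3 h4
  · rintro (rfl | rfl | rfl) f hf
    · exact Pool.Agent.P.MP_ea54b6_co.one_colour f
    · refine Pool.Agent.P.MP_ea54b6_co.two_colours f fun x => ?_
      have : Nontrivial (Fin c) := Fin.nontrivial_iff_two_le.2 h2
      obtain ⟨y, hy⟩ := exists_ne x
      obtain ⟨i, j, hij, e⟩ := hf y
      exact ⟨i, j, hij, e ▸ hy⟩
    · refine ⟨Set.univ, Set.infinite_univ, ?_⟩
      have : {x : Fin c | ∃ i ∈ (Set.univ : Set ℕ), ∃ j ∈ (Set.univ : Set ℕ), i < j ∧ f i j = x} =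
          Set.univ := by
        refine Set.eq_univ_of_forall fun x => ?_
        obtain ⟨i, j, hij, e⟩ := hf x
        exact ⟨i, trivial, j, trivial, hij, e⟩
      rw [this, Set.ncard_univ, Nat.card_eq_fintype_card, Fintype.card_fin]

end Pool.Agent.S12205
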