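import Pool.Statements.S12771
import Pool.Agent.P.MP_1144d4_gt.Main

set_option autoImplicit false
open Pool Pool.MP_1144d4_gt

namespace Pool.Agent.S12771

/-- In the space of continuous surjections of [0,1] (sup metric), for every continuous positive ε there is a continuous self-map moving each point less than ε into the complement of the closure of the transitive maps, i.e. that closure is a Z-set. -/
theorem result :
    ∀ ε : {f : C(Set.Icc (0:ℝ) 1, Set.Icc (0:ℝ) 1) // Function.Surjective ⇑f} → ℝ,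
      Continuous ε → (∀ g, 0 < ε g) →
      ∃ φ : {f : C(Set.Icc (0:ℝ) 1, Set.Icc (0:ℝ) 1) // Function.Surjective ⇑f} →
          {f : C(Set.Icc (0:ℝ) 1, Set.Icc (0:ℝ) 1) // Function.Surjective ⇑f},
        Continuous φ ∧ ∀ g, dist (φ g) g < ε g ∧
          φ g ∉ closure {h : {f : C(Set.Icc (0:ℝ) 1, Set.Icc (0:ℝ) 1) // Function.Surjective ⇑f} |
            ∀ U V : Set (Set.Icc (0:ℝ) 1), IsOpen U → IsOpen V → U.Nonempty → V.Nonempty →
              ∃ n : ℕ, 0 < n ∧ ((⇑h.1)^[n] '' U ∩ V).Nonempty} :=
  Pool.Agent.P.MP_1144d4_gt.zset_main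

end Pool.Agent.S12771
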