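import Pool.Statements.S12789
import Pool.Agent.P.MP_13d552_gt.Pairs
import Pool.Agent.P.MP_13d552_gt.Small

set_option autoImplicit false
open Pool Pool.MP_13d552_gt

namespace Pool.Agent.S12789

/-- For n ≥ 3, if two free finite subgroups of O(2n) are isospectral (equal dimensions of invariant harmonic polynomials in every degree), are not conjugate, and have the least order among all such pairs, then both groups are cyclic. -/
theorem result :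
  ∀ n : ℕ, 3 ≤ n →
  ∀ Γ₁ Γ₂ : Subgroup (Matrix.orthogonalGroup (Fin (2*n)) ℝ),
    (Γ₁ : Set (Matrix.orthogonalGroup (Fin (2*n)) ℝ)).Finite →
    (Γ₂ : Set (Matrix.orthogonalGroup (Fin (2*n)) ℝ)).Finite →
    (∀ g ∈ Γ₁, ∀ v : Fin (2*n) → ℝ,
      (g : Matrix (Fin (2*n)) (Fin (2*n)) ℝ).mulVec v = v → g = 1 ∨ v = 0) →
    (∀ g ∈ Γ₂, ∀ v : Fin (2*n) → ℝ,
      (g : Matrix (Fin (2*n)) (Fin (2*n)) ℝ).mulVec v = v → g = 1 ∨ v = 0) →
    (∀ k : ℕ,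
      Module.finrank ℝ ↥(MvPolynomial.homogeneousSubmodule (Fin (2*n)) ℝ k
        ⊓ LinearMap.ker (∑ i : Fin (2*n),
            (MvPolynomial.pderiv i : Derivation ℝ (MvPolynomial (Fin (2*n)) ℝ) (MvPolynomial (Fin (2*n)) ℝ)).toLinearMap
              ∘ₗ (MvPolynomial.pderiv i : Derivation ℝ (MvPolynomial (Fin (2*n)) ℝ) (MvPolynomial (Fin (2*n)) ℝ)).toLinearMap)
        ⊓ ⨅ g ∈ Γ₁, LinearMap.eqLocus
            (MvPolynomial.aeval (R := ℝ) (fun i : Fin (2*n) => ∑ j : Fin (2*n),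
              (g : Matrix (Fin (2*n)) (Fin (2*n)) ℝ) i j • (MvPolynomial.X j : MvPolynomial (Fin (2*n)) ℝ))).toLinearMap
            (LinearMap.id : MvPolynomial (Fin (2*n)) ℝ →ₗ[ℝ] MvPolynomial (Fin (2*n)) ℝ))
      = Module.finrank ℝ ↥(MvPolynomial.homogeneousSubmodule (Fin (2*n)) ℝ k
        ⊓ LinearMap.ker (∑ i : Fin (2*n),
            (MvPolynomial.pderiv i : Derivation ℝ (MvPolynomial (Fin (2*n)) ℝ) (MvPolynomial (Fin (2*n)) ℝ)).toLinearMap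
              ∘ₗ (MvPolynomial.pderiv i : Derivation ℝ (MvPolynomial (Fin (2*n)) ℝ) (MvPolynomial (Fin (2*n)) ℝ)).toLinearMap)
        ⊓ ⨅ g ∈ Γ₂, LinearMap.eqLocus
            (MvPolynomial.aeval (R := ℝ) (fun i : Fin (2*n) => ∑ j : Fin (2*n),
              (g : Matrix (Fin (2*n)) (Fin (2*n)) ℝ) i j • (MvPolynomial.X j : MvPolynomial (Fin (2*n)) ℝ))).toLinearMap
            (LinearMap.id : MvPolynomial (Fin (2*n)) ℝ →ₗ[ℝ] MvPolynomial (Fin (2*n)) ℝ))) →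
    (¬ ∃ h : Matrix.orthogonalGroup (Fin (2*n)) ℝ, Γ₂ = Γ₁.map (MulAut.conj h).toMonoidHom) →
    (∀ Λ₁ Λ₂ : Subgroup (Matrix.orthogonalGroup (Fin (2*n)) ℝ),
      (Λ₁ : Set (Matrix.orthogonalGroup (Fin (2*n)) ℝ)).Finite →
      (Λ₂ : Set (Matrix.orthogonalGroup (Fin (2*n)) ℝ)).Finite →
      (∀ g ∈ Λ₁, ∀ v : Fin (2*n) → ℝ,
        (g : Matrix (Fin (2*n)) (Fin (2*n)) ℝ).mulVec v = v → g = 1 ∨ v = 0) →
      (∀ g ∈ Λ₂, ∀ v : Fin (2*n) → ℝ,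
        (g : Matrix (Fin (2*n)) (Fin (2*n)) ℝ).mulVec v = v → g = 1 ∨ v = 0) →
      (∀ k : ℕ,
        Module.finrank ℝ ↥(MvPolynomial.homogeneousSubmodule (Fin (2*n)) ℝ k
          ⊓ LinearMap.ker (∑ i : Fin (2*n),
              (MvPolynomial.pderiv i : Derivation ℝ (MvPolynomial (Fin (2*n)) ℝ) (MvPolynomial (Fin (2*n)) ℝ)).toLinearMap
                ∘ₗ (MvPolynomial.pderiv i : Derivation ℝ (MvPolynomial (Fin (2*n)) ℝ) (MvPolynomial (Fin (2*n)) ℝ)).toLinearMap)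
          ⊓ ⨅ g ∈ Λ₁, LinearMap.eqLocus
              (MvPolynomial.aeval (R := ℝ) (fun i : Fin (2*n) => ∑ j : Fin (2*n),
                (g : Matrix (Fin (2*n)) (Fin (2*n)) ℝ) i j • (MvPolynomial.X j : MvPolynomial (Fin (2*n)) ℝ))).toLinearMap
              (LinearMap.id : MvPolynomial (Fin (2*n)) ℝ →ₗ[ℝ] MvPolynomial (Fin (2*n)) ℝ))
        = Module.finrank ℝ ↥(MvPolynomial.homogeneousSubmodule (Fin (2*n)) ℝ k
          ⊓ LinearMap.ker (∑ i : Fin (2*n),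
              (MvPolynomial.pderiv i : Derivation ℝ (MvPolynomial (Fin (2*n)) ℝ) (MvPolynomial (Fin (2*n)) ℝ)).toLinearMap
                ∘ₗ (MvPolynomial.pderiv i : Derivation ℝ (MvPolynomial (Fin (2*n)) ℝ) (MvPolynomial (Fin (2*n)) ℝ)).toLinearMap)
          ⊓ ⨅ g ∈ Λ₂, LinearMap.eqLocus
              (MvPolynomial.aeval (R := ℝ) (fun i : Fin (2*n) => ∑ j : Fin (2*n),
                (g : Matrix (Fin (2*n)) (Fin (2*n)) ℝ) i j • (MvPolynomial.X j : MvPolynomial (Fin (2*n)) ℝ))).toLinearMap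
              (LinearMap.id : MvPolynomial (Fin (2*n)) ℝ →ₗ[ℝ] MvPolynomial (Fin (2*n)) ℝ))) →
      (¬ ∃ h : Matrix.orthogonalGroup (Fin (2*n)) ℝ, Λ₂ = Λ₁.map (MulAut.conj h).toMonoidHom) →
      Nat.card Γ₁ ≤ Nat.card Λ₁) →
    IsCyclic Γ₁ ∧ IsCyclic Γ₂ := by
  intro n hn Γ₁ Γ₂ hf₁ hf₂ hfree₁ hfree₂ hiso hnc hmin
  obtain ⟨q, hq, Λ₁, Λ₂, l1, l2, l3, l4, l5, l6, l7⟩ := Pool.Agent.P.MP_13d552_gt.exists_pair n hn
  have hN : Nat.card Γ₁ ≤ 27 := (hmin Λ₁ Λ₂ l1 l2 l3 l4 l5 l6).trans (l7.le.trans hq)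
  exact Pool.Agent.P.MP_13d552_gt.cyclic_of_small (by omega) Γ₁ Γ₂ hf₁ hf₂ hfree₁ hfree₂ hiso hnc hN

end Pool.Agent.S12789
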