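import Pool.Statements.S12825
import Pool.Agent.P.MP_18ddbc_gt.Main

set_option autoImplicit false
open Pool Pool.MP_18ddbc_gt

namespace Pool.Agent.S12825

/-- For all inverse limits P, Q of arcs with open continuous bonding maps and every continuous f : P → Q, f is a coordinatewise uniform limit of open maps composed with projections iff f is confluent. -/
theorem result :
    ∀ (g h : ℕ → unitInterval → unitInterval),
      (∀ k, Continuous (g k) ∧ IsOpenMap (g k)) →
      (∀ k, Continuous (h k) ∧ IsOpenMap (h k)) →
      ∀ f : {x : ℕ → unitInterval // ∀ k, x k = g k (x (k + 1))} →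
            {y : ℕ → unitInterval // ∀ k, y k = h k (y (k + 1))},
        Continuous f →
        ((∀ j : ℕ, ∃ F : ℕ → unitInterval → unitInterval,
            (∀ i, Continuous (F i) ∧ IsOpenMap (F i)) ∧
            TendstoUniformly
              (fun (i : ℕ) (x : {x : ℕ → unitInterval // ∀ k, x k = g k (x (k + 1))}) =>
                F i (x.1 i))
              (fun x => (f x).1 j) Filter.atTop)
          ↔
         (∀ K : Set {y : ℕ → unitInterval // ∀ k, y k = h k (y (k + 1))},
            IsClosed K → IsConnected K →
            ∀ x, f x ∈ K → f '' connectedComponentIn (f ⁻¹' K) x = K)) := by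
  intro g h hg hh f hf
  constructor
  · intro H
    exact Pool.Agent.P.MP_18ddbc_gt.confluent_of_conf (fun k => (hg k).1) (fun k => (hh k).1) hf
      fun j => Pool.Agent.P.MP_18ddbc_gt.conf_of_approximable hg
        ((Pool.Agent.P.MP_18ddbc_gt.continuous_proj j).comp hf) (H j)
  · intro H j
    exact Pool.Agent.P.MP_18ddbc_gt.approximable_of_conf hg
      ((Pool.Agent.P.MP_18ddbc_gt.continuous_proj j).comp hf)
      (Pool.Agent.P.MP_18ddbc_gt.conf_of_confluent hh H j)

end Pool.Agent.S12825
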