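import Pool.Statements.S13228
import Pool.Agent.P.MP_5aa89f_gt.Main

set_option autoImplicit false
open Pool Pool.MP_5aa89f_gt

namespace Pool.Agent.S13228

/-- The negation of the preceding statement: For every Tychonoff X, if disjoint closed sets in X × βX always lie in disjoint Gδ sets, then every open cover of X has a closed refinement that is a countable union of discrete families covering X (i.e. X is subparacompact). -/
theorem result :
    ¬ (∀ (X : Type) [TopologicalSpace X] [T35Space X],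
      (∀ A B : Set (X × StoneCech X), IsClosed A → IsClosed B → Disjoint A B →
        ∃ U V : Set (X × StoneCech X), IsGδ U ∧ IsGδ V ∧ A ⊆ U ∧ B ⊆ V ∧ Disjoint U V) →
      ∀ (ι : Type) (U : ι → Set X), (∀ i, IsOpen (U i)) → (⋃ i, U i) = Set.univ →
        ∃ (κ : Type) (F : ℕ → κ → Set X),
          (∀ n k, IsClosed (F n k)) ∧
          (∀ n, ∀ x : X, ∃ W ∈ nhds x, Set.Subsingleton {k : κ | (W ∩ F n k).Nonempty}) ∧
          (⋃ n, ⋃ k, F n k) = Set.univ ∧
          (∀ n k, ∃ i, F n k ⊆ U i)) := by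
  intro h
  obtain ⟨κ, F, -, h1, h2, h3⟩ := h Pool.Agent.P.MP_5aa89f_gt.X
    Pool.Agent.P.MP_5aa89f_gt.subnormal_prod Pool.Agent.P.MP_5aa89f_gt.X
    (fun x => Pool.Agent.P.MP_5aa89f_gt.N x 0) (fun x => Pool.Agent.P.MP_5aa89f_gt.isOpen_N x 0)
    (Set.eq_univ_of_forall fun x => Set.mem_iUnion.2 ⟨x, Pool.Agent.P.MP_5aa89f_gt.mem_N x 0⟩)
  exact Pool.Agent.P.MP_5aa89f_gt.not_subparacompact ⟨κ, F, h1, h2, h3⟩

end Pool.Agent.S13228
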