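import Pool.Statements.S13290
import Pool.Agent.P.MP_64e39e_gt.Main

set_option autoImplicit false
open Pool Pool.MP_64e39e_gt

namespace Pool.Agent.S13290

/-- No fan has exactly four orbits under its homeomorphism group. -/
theorem result :
    ¬ (∃ (X : Type) (_ : TopologicalSpace X),
      TopologicalSpace.MetrizableSpace X ∧ CompactSpace X ∧ PathConnectedSpace X ∧
      (∀ A B : Set X, IsClosed A → IsConnected A → IsClosed B → IsConnected B →
          IsPreconnected (A ∩ B)) ∧
      (∃! t : X, ∃ γ : Fin 3 → unitInterval → X,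
          (∀ i, Continuous (γ i) ∧ Function.Injective (γ i) ∧ γ i 0 = t) ∧
          ∀ i j, i ≠ j → Set.range (γ i) ∩ Set.range (γ j) = {t}) ∧
      ∃ a : Fin 4 → X,
        (∀ i j, (∃ h : X ≃ₜ X, h (a i) = a j) → i = j) ∧
        ∀ x : X, ∃ i, ∃ h : X ≃ₜ X, h (a i) = x) := by
  rintro ⟨X, _, hm, hc, hp, hu, ht, a, h1, h2⟩
  letI : MetricSpace X := TopologicalSpace.metrizableSpaceMetric X
  exact Pool.Agent.P.MP_64e39e_gt.no_four_orbits' hu ht a h1 h2

end Pool.Agent.S13290
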