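import Pool.Statements.S13507
import Pool.Agent.P.MP_892330_gt.Dim

set_option autoImplicit false
open Pool Pool.MP_892330_gt

namespace Pool.Agent.S13507

/-- Every compact connected metric space of covering dimension exactly 2 that contains no triod has a subcontinuum of covering dimension exactly 2 that is not the union of two proper subcontinua. -/
theorem result :
  ∀ (X : Type) [MetricSpace X] [CompactSpace X] [ConnectedSpace X],
    ∀ D : Set X → ℕ → Prop,
      (∀ (S : Set X) (n : ℕ), D S n ↔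
        ∀ (m : ℕ) (U : Fin m → Set X), (∀ i, IsOpen (U i)) → S ⊆ ⋃ i, U i →
          ∃ (k : ℕ) (V : Fin k → Set X), (∀ j, IsOpen (V j)) ∧ S ⊆ ⋃ j, V j ∧
            (∀ j, ∃ i, V j ⊆ U i) ∧ ∀ x ∈ S, {j : Fin k | x ∈ V j}.ncard ≤ n + 1) →
      (¬ ∃ T Z A B C : Set X, IsCompact T ∧ IsConnected T ∧ IsCompact Z ∧ IsConnected Z ∧
          Z ⊆ T ∧ T \ Z = A ∪ B ∪ C ∧ A.Nonempty ∧ B.Nonempty ∧ C.Nonempty ∧
          Disjoint (closure A) B ∧ Disjoint A (closure B) ∧
          Disjoint (closure A) C ∧ Disjoint A (closure C) ∧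
          Disjoint (closure B) C ∧ Disjoint B (closure C)) →
      D Set.univ 2 → ¬ D Set.univ 1 →
      ∃ K : Set X, IsCompact K ∧ IsConnected K ∧ D K 2 ∧ ¬ D K 1 ∧
        ∀ P Q : Set X, IsCompact P → IsConnected P → IsCompact Q → IsConnected Q →
          P ∪ Q = K → P = K ∨ Q = K := by
  intro X _ _ _ D hD hA h2 h1
  have e : ∀ S n, D S n ↔ Pool.Agent.P.MP_892330_gt.DimLe S n := hD
  obtain ⟨K, hK, hKc, hK1, hind⟩ :=
    Pool.Agent.P.MP_892330_gt.exists_indecomposable hA (fun h => h1 ((e _ _).mpr h))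
  exact ⟨K, hK, hKc,
    (e _ _).mpr (Pool.Agent.P.MP_892330_gt.dimLe_of_closed hK.isClosed hKc.nonempty
      ((e _ _).mp h2)),
    fun h => hK1 ((e _ _).mp h), fun P Q hP hPc hQ _ hPQ => hind P Q hP hPc hQ hPQ⟩

end Pool.Agent.S13507
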