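import Pool.Statements.S13680
import Pool.Agent.P.MP_a06b07_gt.Space

set_option autoImplicit false
open Pool Pool.MP_a06b07_gt

namespace Pool.Agent.S13680

/-- The negation of the preceding statement: Every compact Hausdorff space that has a well-ordering in which all final segments {y : y ≥ x} are open is a union of countably many subspaces, each discrete in the subspace topology. -/
theorem result :
    ¬ (∀ (X : Type) [TopologicalSpace X] [CompactSpace X] [T2Space X],
      (∃ r : X → X → Prop, IsWellOrder X r ∧ ∀ x : X, IsOpen {y : X | ¬ r y x}) →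
      ∃ D : ℕ → Set X, (⋃ n, D n) = Set.univ ∧ ∀ n, DiscreteTopology (D n)) := by
  intro h
  exact Pool.Agent.P.MP_a06b07_gt.main
    (h (OnePoint Pool.Agent.P.MP_a06b07_gt.Y)
      ⟨Pool.Agent.P.MP_a06b07_gt.rel, Pool.Agent.P.MP_a06b07_gt.isWellOrder_rel,
        Pool.Agent.P.MP_a06b07_gt.isOpen_final⟩)

end Pool.Agent.S13680
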