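import Pool.Statements.S14818
import Pool.Agent.P.MP_65d1df_lc.Game

set_option autoImplicit false
open Pool Pool.MP_65d1df_lc

namespace Pool.Agent.S14818

/-- The negation of the preceding statement: There exist δ>0 and c>0 such that for all large n, every protocol for G_n (Alice writes online bits depending on the stream prefix, Bob must output a set containing σ_n) has some input where Bob's set has size at least c·n^δ. -/
theorem result :
    ¬ (∃ δ : ℝ, 0 < δ ∧ ∃ c : ℝ, 0 < c ∧ ∃ N : ℕ, ∀ m : ℕ, N ≤ m →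
      ∀ A : List (Fin (m + 1)) → Bool,
      ∀ B : (Fin (m + 1) → Bool) → Finset (Fin (m + 1)),
        (∀ σ : Equiv.Perm (Fin (m + 1)), ∀ b : Bool,
          σ (Fin.last m) ∈ B (fun j : Fin (m + 1) =>
            if σ.symm j = Fin.last m then b
            else A (List.map σ ((List.finRange (m + 1)).take ((σ.symm j).val + 1))))) →
        ∃ σ : Equiv.Perm (Fin (m + 1)), ∃ b : Bool,
          c * ((m + 1 : ℕ) : ℝ) ^ δ ≤
            ((B (fun j : Fin (m + 1) =>
              if σ.symm j = Fin.last m then b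
              else A (List.map σ ((List.finRange (m + 1)).take ((σ.symm j).val + 1))))).card : ℝ)) := by
  rintro ⟨δ, hδ, c, hc, N, h⟩
  obtain ⟨L, hL⟩ := exists_nat_ge (3 / δ)
  obtain ⟨N', hN'⟩ := exists_nat_gt (1 / c)
  obtain ⟨θ, m, hθ, hm, B, hB, hwin⟩ := Pool.Agent.P.MP_65d1df_lc.exists_cheap L (N + N' + 1)
  obtain ⟨A, hA⟩ := Pool.Agent.P.MP_65d1df_lc.exists_protocol hwin
  have hθm : θ ≤ m + 1 := by rw [hm]; exact Nat.le_self_pow (by omega) _
  obtain ⟨σ, b, hσ⟩ := h m (by omega) A B hA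
  have h1 : c * ((m + 1 : ℕ) : ℝ) ^ δ ≤ (θ : ℝ) ^ 2 := hσ.trans (by exact_mod_cast hB _)
  have hθ1 : (1 : ℝ) ≤ θ := by exact_mod_cast (by omega : 1 ≤ θ)
  have h2 : (θ : ℝ) ^ 3 ≤ ((m + 1 : ℕ) : ℝ) ^ δ := by
    rw [hm, Nat.cast_pow, ← Real.rpow_natCast (θ : ℝ) (L + 1), ← Real.rpow_mul (by positivity),
      ← Real.rpow_natCast (θ : ℝ) 3]
    refine Real.rpow_le_rpow_of_exponent_le hθ1 ?_
    rw [div_le_iff₀ hδ] at hL
    push_cast
    nlinarith
  have h3 : 1 < c * θ := by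
    rw [div_lt_iff₀ hc] at hN'
    have : (N' : ℝ) ≤ θ := by exact_mod_cast (by omega : N' ≤ θ)
    nlinarith
  have h4 : (0 : ℝ) < (θ : ℝ) ^ 2 := by positivity
  nlinarith

end Pool.Agent.S14818
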