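import Pool.Statements.S14866
import Pool.Agent.P.MP_6e3a57_lc.NonIso

set_option autoImplicit false
open Pool Pool.MP_6e3a57_lc

namespace Pool.Agent.S14866

/-- The negation of the preceding statement: Any two finitely presented lattice-ordered groups that satisfy exactly the same first-order sentences in the language of multiplication, inverse, identity, join and meet are isomorphic as lattice-ordered groups. -/
theorem result :
    ¬ (∀ (G H : Type) [Group G] [Lattice G] [MulLeftMono G] [MulRightMono G]
      [Group H] [Lattice H] [MulLeftMono H] [MulRightMono H]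
      [SG : FirstOrder.Language.Structure (FirstOrder.Language.mk (fun _ => Fin 4) (fun _ => Empty)) G]
      [SH : FirstOrder.Language.Structure (FirstOrder.Language.mk (fun _ => Fin 4) (fun _ => Empty)) H],
      SG = { funMap := fun {n} (k : Fin 4) (x : Fin n → G) =>
                if k = 0 then (if h : 0 < n then x ⟨0, h⟩ else 1) * (if h : 1 < n then x ⟨1, h⟩ else 1)
                else if k = 1 then (if h : 0 < n then x ⟨0, h⟩ else 1)⁻¹
                else if k = 2 then (if h : 0 < n then x ⟨0, h⟩ else 1) ⊔ (if h : 1 < n then x ⟨1, h⟩ else 1)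
                else (if h : 0 < n then x ⟨0, h⟩ else 1) ⊓ (if h : 1 < n then x ⟨1, h⟩ else 1),
             RelMap := fun _ _ => False } →
      SH = { funMap := fun {n} (k : Fin 4) (x : Fin n → H) =>
                if k = 0 then (if h : 0 < n then x ⟨0, h⟩ else 1) * (if h : 1 < n then x ⟨1, h⟩ else 1)
                else if k = 1 then (if h : 0 < n then x ⟨0, h⟩ else 1)⁻¹
                else if k = 2 then (if h : 0 < n then x ⟨0, h⟩ else 1) ⊔ (if h : 1 < n then x ⟨1, h⟩ else 1)
                else (if h : 0 < n then x ⟨0, h⟩ else 1) ⊓ (if h : 1 < n then x ⟨1, h⟩ else 1),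
             RelMap := fun _ _ => False } →
      (∃ (n m : ℕ) (g : Fin n → G)
          (r : Fin m → FirstOrder.Language.Term (FirstOrder.Language.mk (fun _ => Fin 4) (fun _ => Empty)) (Fin n) ×
                FirstOrder.Language.Term (FirstOrder.Language.mk (fun _ => Fin 4) (fun _ => Empty)) (Fin n)),
        (∀ j, (r j).1.realize g = (r j).2.realize g) ∧
        ∀ (K : Type) [Group K] [Lattice K] [MulLeftMono K] [MulRightMono K]
          [SK : FirstOrder.Language.Structure (FirstOrder.Language.mk (fun _ => Fin 4) (fun _ => Empty)) K],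
          SK = { funMap := fun {n} (k : Fin 4) (x : Fin n → K) =>
                    if k = 0 then (if h : 0 < n then x ⟨0, h⟩ else 1) * (if h : 1 < n then x ⟨1, h⟩ else 1)
                    else if k = 1 then (if h : 0 < n then x ⟨0, h⟩ else 1)⁻¹
                    else if k = 2 then (if h : 0 < n then x ⟨0, h⟩ else 1) ⊔ (if h : 1 < n then x ⟨1, h⟩ else 1)
                    else (if h : 0 < n then x ⟨0, h⟩ else 1) ⊓ (if h : 1 < n then x ⟨1, h⟩ else 1),
                 RelMap := fun _ _ => False } →
          ∀ h : Fin n → K, (∀ j, (r j).1.realize h = (r j).2.realize h) →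
            ∃! φ : G →* K, (∀ a b : G, φ (a ⊔ b) = φ a ⊔ φ b) ∧ ∀ i, φ (g i) = h i) →
      (∃ (n m : ℕ) (g : Fin n → H)
          (r : Fin m → FirstOrder.Language.Term (FirstOrder.Language.mk (fun _ => Fin 4) (fun _ => Empty)) (Fin n) ×
                FirstOrder.Language.Term (FirstOrder.Language.mk (fun _ => Fin 4) (fun _ => Empty)) (Fin n)),
        (∀ j, (r j).1.realize g = (r j).2.realize g) ∧
        ∀ (K : Type) [Group K] [Lattice K] [MulLeftMono K] [MulRightMono K]
          [SK : FirstOrder.Language.Structure (FirstOrder.Language.mk (fun _ => Fin 4) (fun _ => Empty)) K],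
          SK = { funMap := fun {n} (k : Fin 4) (x : Fin n → K) =>
                    if k = 0 then (if h : 0 < n then x ⟨0, h⟩ else 1) * (if h : 1 < n then x ⟨1, h⟩ else 1)
                    else if k = 1 then (if h : 0 < n then x ⟨0, h⟩ else 1)⁻¹
                    else if k = 2 then (if h : 0 < n then x ⟨0, h⟩ else 1) ⊔ (if h : 1 < n then x ⟨1, h⟩ else 1)
                    else (if h : 0 < n then x ⟨0, h⟩ else 1) ⊓ (if h : 1 < n then x ⟨1, h⟩ else 1),
                 RelMap := fun _ _ => False } →
          ∀ h : Fin n → K, (∀ j, (r j).1.realize h = (r j).2.realize h) →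
            ∃! φ : H →* K, (∀ a b : H, φ (a ⊔ b) = φ a ⊔ φ b) ∧ ∀ i, φ (g i) = h i) →
      FirstOrder.Language.completeTheory (FirstOrder.Language.mk (fun _ => Fin 4) (fun _ => Empty)) G =
        FirstOrder.Language.completeTheory (FirstOrder.Language.mk (fun _ => Fin 4) (fun _ => Empty)) H →
      Nonempty (OrderMonoidIso G H)) := by
  intro h
  exact Pool.Agent.P.MP_6e3a57_lc.not_iso
    (@h (Pool.Agent.P.MP_6e3a57_lc.G Pool.Agent.P.MP_6e3a57_lc.u0)
      (Pool.Agent.P.MP_6e3a57_lc.G Pool.Agent.P.MP_6e3a57_lc.u1) _ _ _ _ _ _ _ _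
      (Pool.Agent.P.MP_6e3a57_lc.lstr _) (Pool.Agent.P.MP_6e3a57_lc.lstr _) rfl rfl
      (Pool.Agent.P.MP_6e3a57_lc.fp _ Pool.Agent.P.MP_6e3a57_lc.strong_u0)
      (Pool.Agent.P.MP_6e3a57_lc.fp _ Pool.Agent.P.MP_6e3a57_lc.strong_u1)
      Pool.Agent.P.MP_6e3a57_lc.elem_equiv)

end Pool.Agent.S14866
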