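import Pool.Statements.S15079
import Pool.Agent.P.MP_95c9ea_lc.Cube

set_option autoImplicit false
open Pool Pool.MP_95c9ea_lc

namespace Pool.Agent.S15079

/-- For every singular cardinal κ there is a 2-coloring of triples of ordinals below κ⁺ such that no three subsets of κ⁺, each of order type κ, span a product on which the coloring is constant. -/
theorem result :
    ∀ κ : Cardinal.{0}, Cardinal.aleph0 ≤ κ → ¬ κ.IsRegular →
      ∃ c : Ordinal.{0} → Ordinal.{0} → Ordinal.{0} → Fin 2,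
        ∀ H I J : Set Ordinal.{0},
          H ⊆ Set.Iio (Order.succ κ).ord →
          I ⊆ Set.Iio (Order.succ κ).ord →
          J ⊆ Set.Iio (Order.succ κ).ord →
          Nonempty (↥H ≃o ↥(Set.Iio κ.ord)) →
          Nonempty (↥I ≃o ↥(Set.Iio κ.ord)) →
          Nonempty (↥J ≃o ↥(Set.Iio κ.ord)) →
          ¬ ∃ i : Fin 2, ∀ a ∈ H, ∀ b ∈ I, ∀ d ∈ J, c a b d = i := by
  classical
  intro κ hκ hreg
  have hκ0 : Cardinal.aleph0 < κ := by
    rcases hκ.lt_or_eq with h | h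
    · exact h
    · exact absurd (h ▸ Cardinal.isRegular_aleph0) hreg
  have hlim0 : ∀ ν < κ, Order.succ ν < κ := by
    intro ν hν
    rcases (Order.succ_le_of_lt hν).lt_or_eq with h | h
    · exact h
    · exfalso
      rcases le_or_gt Cardinal.aleph0 ν with h2 | h2
      · exact hreg (h ▸ Cardinal.isRegular_succ h2)
      · have h3 : Order.succ ν ≤ Cardinal.aleph0 := Order.succ_le_of_lt h2
        exact absurd (h ▸ h3) (not_le.mpr hκ0)
  have hK : Cardinal.aleph0 < Cardinal.lift.{1} κ := by simpa using hκ0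
  have hlim : ∀ ν < Cardinal.lift.{1} κ, Order.succ ν < Cardinal.lift.{1} κ := by
    intro ν hν
    obtain ⟨μ, hμ, rfl⟩ := Cardinal.lt_lift_iff.mp hν
    rw [← Cardinal.lift_succ, Cardinal.lift_lt]
    exact hlim0 μ hμ
  have hseg : ∀ a : Set.Iio (Order.succ κ).ord,
      Cardinal.mk (Set.Iio a) ≤ Cardinal.lift.{1} κ := by
    intro a
    have h1 : Cardinal.mk (Set.Iio a) ≤ Cardinal.mk (Set.Iio a.1) := by
      refine Cardinal.mk_le_of_injective
        (f := fun x : Set.Iio a => (⟨x.1.1, x.2⟩ : Set.Iio a.1)) ?_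
      intro x y hxy
      have h4 : x.1.1 = y.1.1 := Subtype.mk.inj hxy
      exact Subtype.ext (Subtype.ext h4)
    refine h1.trans ?_
    rw [Cardinal.mk_Iio_ordinal, Cardinal.lift_le, ← Order.lt_succ_iff, ← Cardinal.lt_ord]
    exact a.2
  obtain ⟨c, hc⟩ := Pool.Agent.P.MP_95c9ea_lc.exists_colouring
    (α := Set.Iio (Order.succ κ).ord) (Cardinal.lift.{1} κ) hK hlim hseg
  refine ⟨fun a b g =>
    if h : a ∈ Set.Iio (Order.succ κ).ord ∧ b ∈ Set.Iio (Order.succ κ).ord ∧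
      g ∈ Set.Iio (Order.succ κ).ord then c ⟨a, h.1⟩ ⟨b, h.2.1⟩ ⟨g, h.2.2⟩ else 0, ?_⟩
  have hcard : ∀ H : Set Ordinal.{0}, H ⊆ Set.Iio (Order.succ κ).ord →
      Nonempty (↥H ≃o ↥(Set.Iio κ.ord)) → Cardinal.lift.{1} κ ≤
        Cardinal.mk ((Subtype.val : Set.Iio (Order.succ κ).ord → Ordinal.{0}) ⁻¹' H) := by
    rintro H hH ⟨e⟩
    rw [Cardinal.mk_preimage_of_injective_of_subset_range _ _ Subtype.val_injective
      (by rw [Subtype.range_coe]; exact hH), Cardinal.mk_congr e.toEquiv, Cardinal.mk_Iio_ordinal,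
      Cardinal.card_ord]
  rintro H I J hH hI hJ eH eI eJ ⟨i, hi⟩
  refine hc _ _ _ (hcard H hH eH) (hcard I hI eI) (hcard J hJ eJ) ⟨i, ?_⟩
  intro a ha b hb g hg
  have h1 := hi a.1 ha b.1 hb g.1 hg
  beta_reduce at h1
  rw [dif_pos ⟨a.2, b.2, g.2⟩] at h1
  exact h1

end Pool.Agent.S15079
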