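import Pool.Statements.S15128
import Pool.Agent.P.MP_9f8894_lc.Main

set_option autoImplicit false
open Classical
open Pool Pool.MP_9f8894_lc

namespace Pool.Agent.S15128

/-- The negation of the preceding statement: For n ≥ 5, every countably infinite Boolean algebra with a presentation on ℕ whose n-th Turing jump is computable from the n-th jump of the empty set has a presentation on ℕ with computable join, meet and complement. -/
theorem result :
    ¬ (∀ IsJ : Set (ℕ →. ℕ) → Set ℕ → Prop,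
    (∀ (O : Set (ℕ →. ℕ)) (A : Set ℕ), IsJ O A ↔
      ((∃ f : ℕ →. ℕ, RecursiveIn O f ∧ ∀ x, x ∈ A ↔ (f x).Dom) ∧
       (∀ S : Set ℕ, (∃ f : ℕ →. ℕ, RecursiveIn O f ∧ ∀ x, x ∈ S ↔ (f x).Dom) →
          ∃ g : ℕ → ℕ, Computable g ∧ ∀ x, x ∈ S ↔ g x ∈ A))) →
  ∀ n : ℕ, 5 ≤ n →
  ∀ (B : Type) [BooleanAlgebra B] (e : ℕ ≃ B),
    (∃ J K : ℕ → Set ℕ,
      IsJ ({fun k => Part.some (e.symm (e k.unpair.1 ⊔ e k.unpair.2)),
            fun k => Part.some (e.symm (e k.unpair.1 ⊓ e k.unpair.2)),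
            fun k => Part.some (e.symm (e k)ᶜ)} : Set (ℕ →. ℕ)) (J 0) ∧
      (∀ k, IsJ ({fun x => Part.some (if x ∈ J k then 1 else 0)} : Set (ℕ →. ℕ)) (J (k + 1))) ∧
      IsJ (∅ : Set (ℕ →. ℕ)) (K 0) ∧
      (∀ k, IsJ ({fun x => Part.some (if x ∈ K k then 1 else 0)} : Set (ℕ →. ℕ)) (K (k + 1))) ∧
      RecursiveIn ({fun x => Part.some (if x ∈ K (n - 1) then 1 else 0)} : Set (ℕ →. ℕ))
        (fun x => Part.some (if x ∈ J (n - 1) then 1 else 0))) →
    ∃ f : ℕ ≃ B,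
      Computable₂ (fun a b : ℕ => f.symm (f a ⊔ f b)) ∧
      Computable₂ (fun a b : ℕ => f.symm (f a ⊓ f b)) ∧
      Computable (fun a : ℕ => f.symm (f a)ᶜ)) := by
  obtain ⟨T, Y, e, hlow, h1, h2, h3, hno⟩ := Pool.Agent.P.MP_9f8894_lc.main_tree
  exact Pool.Agent.P.MP_9f8894_lc.Inv.bridge 20 (by norm_num) Y hlow _ e h1 h2 h3 hno

end Pool.Agent.S15128
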