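import Pool.Statements.S15441
import Pool.Agent.P.MP_d6faff_lc.Main

set_option autoImplicit false
open Pool Pool.MP_d6faff_lc

namespace Pool.Agent.S15441

/-- There is a computable connected locally finite graph on the naturals with n ≥ 2 computable copies, pairwise not computably isomorphic, such that every computable copy is computably isomorphic to one of them. -/
theorem result :
    ∃ H : SimpleGraph ℕ,
      ComputablePred (fun p : ℕ × ℕ => H.Adj p.1 p.2) ∧
      H.Connected ∧
      (∀ v : ℕ, (H.neighborSet v).Finite) ∧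
      ∃ n : ℕ, 2 ≤ n ∧ ∃ G : Fin n → SimpleGraph ℕ,
        (∀ i : Fin n, ComputablePred (fun p : ℕ × ℕ => (G i).Adj p.1 p.2) ∧
            Nonempty (H ≃g G i)) ∧
        (∀ i j : Fin n, i ≠ j → ∀ f : G i ≃g G j, ¬ Computable (⇑f : ℕ → ℕ)) ∧
        (∀ K : SimpleGraph ℕ, ComputablePred (fun p : ℕ × ℕ => K.Adj p.1 p.2) →
            Nonempty (H ≃g K) →
            ∃ i : Fin n, ∃ f : K ≃g G i, Computable (⇑f : ℕ → ℕ)) :=
  Pool.Agent.P.MP_d6faff_lc.main

end Pool.Agent.S15441
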