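import Pool.Statements.S15788
import Pool.Agent.P.MP_bf5038_mp.Main

set_option autoImplicit false
open Pool Pool.MP_bf5038_mp

namespace Pool.Agent.S15788

/-- The negation of the preceding statement: For every smooth H(u,x,y) harmonic in (x,y) for each u, the pp-wave 2dudv+Hdu²+dx²+dy² has all geodesics defined for all parameter values iff, for each u, H(u,·,·) is a polynomial of degree at most two in (x,y). -/
theorem result :
    ¬ (∀ H : ℝ → ℝ → ℝ → ℝ,
      ContDiff ℝ ((⊤ : ℕ∞) : WithTop ℕ∞) (fun p : ℝ × ℝ × ℝ => H p.1 p.2.1 p.2.2) →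
      (∀ u x y : ℝ,
        deriv (fun ξ => deriv (fun η => H u η y) ξ) x
          + deriv (fun ξ => deriv (fun η => H u x η) ξ) y = 0) →
      ((∀ u₀ v₀ x₀ y₀ a b c d : ℝ, ∃ U V X Y U' V' X' Y' : ℝ → ℝ,
          U 0 = u₀ ∧ V 0 = v₀ ∧ X 0 = x₀ ∧ Y 0 = y₀ ∧
          U' 0 = a ∧ V' 0 = b ∧ X' 0 = c ∧ Y' 0 = d ∧
          ∀ s : ℝ,
            HasDerivAt U (U' s) s ∧ HasDerivAt V (V' s) s ∧
            HasDerivAt X (X' s) s ∧ HasDerivAt Y (Y' s) s ∧
            HasDerivAt U' 0 s ∧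
            HasDerivAt X' ((1 / 2) * deriv (fun ξ => H (U s) ξ (Y s)) (X s) * U' s ^ 2) s ∧
            HasDerivAt Y' ((1 / 2) * deriv (fun η => H (U s) (X s) η) (Y s) * U' s ^ 2) s ∧
            HasDerivAt V'
              (-(1 / 2) * deriv (fun τ => H τ (X s) (Y s)) (U s) * U' s ^ 2
                - deriv (fun ξ => H (U s) ξ (Y s)) (X s) * U' s * X' s
                - deriv (fun η => H (U s) (X s) η) (Y s) * U' s * Y' s) s)
        ↔ ∀ u : ℝ, ∃ a b c d e f : ℝ, ∀ x y : ℝ,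
            H u x y = a + b * x + c * y + d * x ^ 2 + e * x * y + f * y ^ 2)) := by
  intro h
  exact P.MP_bf5038_mp.Hp_not_quadratic
    ((h P.MP_bf5038_mp.Hp P.MP_bf5038_mp.Hp_contDiff P.MP_bf5038_mp.Hp_harmonic).1
      P.MP_bf5038_mp.Hp_complete 0)

end Pool.Agent.S15788
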