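import Pool.Statements.S15793
import Pool.Agent.P.MP_c9a3a4_mp.Weyl

set_option autoImplicit false
open Pool Pool.MP_c9a3a4_mp

namespace Pool.Agent.S15793

/-- For every non-periodic limit-periodic potential V on the integers and every ε>0, there is a non-periodic limit-periodic V' uniformly ε-close to V such that the spectrum of the Schrödinger operator Δ+V' on ℓ²(ℤ) is not a Cantor set. -/
theorem result :
  ∀ V : ℤ → ℝ,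
    (∀ ε : ℝ, 0 < ε → ∃ p : ℕ, 0 < p ∧ ∃ W : ℤ → ℝ,
        (∀ n : ℤ, W (n + (p : ℤ)) = W n) ∧ ∀ n : ℤ, |V n - W n| < ε) →
    ¬ (∃ p : ℕ, 0 < p ∧ ∀ n : ℤ, V (n + (p : ℤ)) = V n) →
    ∀ ε : ℝ, 0 < ε → ∃ V' : ℤ → ℝ,
      (∀ δ : ℝ, 0 < δ → ∃ p : ℕ, 0 < p ∧ ∃ W : ℤ → ℝ,
          (∀ n : ℤ, W (n + (p : ℤ)) = W n) ∧ ∀ n : ℤ, |V' n - W n| < δ) ∧
      ¬ (∃ p : ℕ, 0 < p ∧ ∀ n : ℤ, V' (n + (p : ℤ)) = V' n) ∧
      (∀ n : ℤ, |V n - V' n| < ε) ∧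
      ∀ S : Set ℝ,
        S = {E : ℝ | ¬ ((∃ R : lp (fun _ : ℤ => ℂ) 2 →L[ℂ] lp (fun _ : ℤ => ℂ) 2,
              ∀ φ : lp (fun _ : ℤ => ℂ) 2, ∀ n : ℤ,
                R φ (n + 1) + R φ (n - 1) + ((V' n : ℂ) - (E : ℂ)) * R φ n = φ n) ∧
            (∀ ψ : ℤ → ℂ, Memℓp ψ 2 →
              (∀ n : ℤ, ψ (n + 1) + ψ (n - 1) + ((V' n : ℂ) - (E : ℂ)) * ψ n = 0) →
              ψ = 0))} →
        ¬ (S.Nonempty ∧ IsCompact S ∧ Perfect S ∧ IsTotallyDisconnected S) := by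
  intro V hV _ ε hε
  obtain ⟨p, hp, W, hW, hVW⟩ := hV (ε / 2) (by positivity)
  have hW2 : ∀ n : ℤ, W (n + ((p + p : ℕ) : ℤ)) = W n := by
    intro n
    have : n + ((p + p : ℕ) : ℤ) = (n + p) + p := by push_cast; ring
    rw [this, hW, hW]
  obtain ⟨a, b, hab, hG⟩ := P.MP_c9a3a4_mp.exists_good W (N := p + p) (by omega) hW2
  have hconn : ConnectedSpace (Set.Icc a b) :=
    isConnected_iff_connectedSpace.1 (isConnected_Icc hab.le)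
  have hnt : Nontrivial (Set.Icc a b) :=
    ⟨⟨⟨a, Set.left_mem_Icc.2 hab.le⟩, ⟨b, Set.right_mem_Icc.2 hab.le⟩,
      fun h => hab.ne (congrArg Subtype.val h)⟩⟩
  obtain ⟨V', h1, h2, h3⟩ := P.MP_c9a3a4_mp.exists_limit (fun y => inferInstance)
    continuous_subtype_val Subtype.val_injective hG (ε := ε / 2) (by positivity)
  refine ⟨V', fun δ hδ => ?_, ?_, fun n => ?_, ?_⟩
  · obtain ⟨V₁, N₁, ⟨m, -, hD, -⟩, h⟩ := h2 δ hδ
    exact ⟨N₁, hD.pos, V₁, hD.per, h⟩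
  · rintro ⟨q, hq, h⟩
    exact h3 q hq h
  · have e1 := abs_lt.1 (hVW n)
    have e2 := abs_lt.1 (h1 n)
    rw [abs_lt]
    constructor <;> linarith [e1.1, e1.2, e2.1, e2.2]
  · rintro S rfl ⟨-, -, -, htd⟩
    refine hab.ne (htd (Set.Icc a b) (fun E hE => ?_) isPreconnected_Icc
      (Set.left_mem_Icc.2 hab.le) (Set.right_mem_Icc.2 hab.le))
    refine P.MP_c9a3a4_mp.weyl fun δ hδ => ?_
    obtain ⟨V₁, N₁, ⟨m, -, hD, -⟩, h⟩ := h2 δ hδ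
    exact ⟨V₁, N₁, m ⟨E, hE⟩, hD.pos, hD.per, (hD.im_pos _).ne', hD.bloch ⟨E, hE⟩,
      fun n => (h n).le⟩

end Pool.Agent.S15793
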