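import Pool.Statements.S16061
import Pool.Agent.P.MP_10b087_nt.Main

set_option autoImplicit false
open Pool Pool.MP_10b087_nt

namespace Pool.Agent.S16061

/-- For every n ≥ 1, every addition chain 1 = a0, ..., ar = n (each term a sum of two earlier terms) has length r at least floor(log2 n) plus the ceiling of log2 of the number of 1s in n's binary expansion. -/
theorem result :
    ∀ n : ℕ, 1 ≤ n → ∀ r : ℕ, ∀ a : ℕ → ℕ,
      a 0 = 1 → a r = n →
      (∀ i : ℕ, 1 ≤ i → i ≤ r → ∃ j k : ℕ, j < i ∧ k < i ∧ a i = a j + a k) →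
      Nat.log 2 n + Nat.clog 2 (Nat.digits 2 n).sum ≤ r := by
  intro n hn r a h0 hr h
  have hg := Pool.Agent.P.MP_10b087_nt.chain_good r a h0 h
  rw [hr] at hg
  exact hg.final hn

end Pool.Agent.S16061
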