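import Pool.Statements.S16419
import Pool.Agent.P.MP_2c7dbf_nt.Main

set_option autoImplicit false
open Pool Pool.MP_2c7dbf_nt

namespace Pool.Agent.S16419

/-- For every k and every finite group G of order k: if some injective map from {1,…,k} to G sends every product xy ≤ k of elements x, y ≤ k to the group product of their images, then G is abelian. -/
theorem result :
    ∀ (k : ℕ) (G : Type) [Group G] [Fintype G], Fintype.card G = k →
      ∀ φ : ℕ → G, Set.InjOn φ (Set.Icc 1 k) →
        (∀ x ∈ Set.Icc 1 k, ∀ y ∈ Set.Icc 1 k, x * y ≤ k → φ (x * y) = φ x * φ y) →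
        ∀ a b : G, a * b = b * a := by
  intro k G _ _ hG φ hinj hmul
  exact Pool.Agent.P.MP_2c7dbf_nt.main k G hG φ hinj hmul

end Pool.Agent.S16419
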