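import Pool.Statements.S17711
import Pool.Agent.P.MP_8d0004_nt.LR.Fin

set_option autoImplicit false
open Pool Pool.MP_8d0004_nt

namespace Pool.Agent.S17711

/-- With IKM(a,b;n)=∫₀^∞ I₀^a K₀^b tⁿ dt, the 2×2 determinant of the stated 8-Bessel moment combinations equals 6075/(128π²) times L(f,7), where f is the weight-6 level-6 eta-quotient newform and L(f,7) is given by its Mellin integral. -/
theorem result :
  ∀ (I0 K0 eta : ℝ → ℝ) (IKM : ℕ → ℕ → ℕ → ℝ),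
    (∀ t : ℝ, I0 t = (1 / Real.pi) * ∫ θ in (0:ℝ)..Real.pi, Real.exp (t * Real.cos θ)) →
    (∀ t : ℝ, K0 t = ∫ u in Set.Ioi (0:ℝ), Real.exp (-(t * Real.cosh u))) →
    (∀ a b n : ℕ, IKM a b n = ∫ t in Set.Ioi (0:ℝ), I0 t ^ a * K0 t ^ b * t ^ n) →
    (∀ y : ℝ, eta y = Real.exp (-(Real.pi * y / 12)) *
        ∏' n : ℕ, (1 - Real.exp (-(2 * Real.pi * ((n:ℝ) + 1) * y)))) →
    IKM 0 8 1 * (IKM 2 6 3 - 2 * IKM 2 6 5) - (IKM 0 8 3 - 2 * IKM 0 8 5) * IKM 2 6 1 =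
      6075 / (128 * Real.pi ^ 2) *
        ((2 * Real.pi) ^ 7 / 720 *
          ∫ y in Set.Ioi (0:ℝ),
            ((eta (2 * y) * eta (3 * y)) ^ 9 / (eta y * eta (6 * y)) ^ 3 +
              (eta y * eta (6 * y)) ^ 9 / (eta (2 * y) * eta (3 * y)) ^ 3) * y ^ 6) := by
  intro I0 K0 eta IKM hI hK hM he
  obtain rfl : I0 = Pool.Agent.P.MP_8d0004_nt.Bes.I0 := funext hI
  obtain rfl : K0 = Pool.Agent.P.MP_8d0004_nt.Bes.K0 := funext hK
  obtain rfl : eta = Pool.Agent.P.MP_8d0004_nt.LR.eta := funext he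
  obtain rfl : IKM = Pool.Agent.P.MP_8d0004_nt.Bes.IKM := by
    funext a b n
    exact hM a b n
  rw [Pool.Agent.P.MP_8d0004_nt.Bes.det_eq_rho, Pool.Agent.P.MP_8d0004_nt.LR.rho_eq]
  have h : ∀ J : ℝ, 35 / 128 * (216 * Real.pi ^ 5 / 7 * J)
      = 6075 / (128 * Real.pi ^ 2) * ((2 * Real.pi) ^ 7 / 720 * J) := fun J => by
    have := Real.pi_ne_zero
    field_simp
    ring
  exact h _

end Pool.Agent.S17711
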