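import Pool.Statements.S17815
import Pool.Agent.P.MP_94fe55_nt.All

set_option autoImplicit false
open Pool Pool.MP_94fe55_nt

namespace Pool.Agent.S17815

/-- For every s, only finitely many singular moduli (j-values at imaginary quadratic points of the upper half-plane) are S-units for some set S of exactly s rational primes. -/
theorem result :
    ∀ s : ℕ, Set.Finite {x : ℂ |
      (∃ τ : ℂ, 0 < τ.im ∧
        (∃ a b c : ℤ, a ≠ 0 ∧ (a : ℂ) * τ ^ 2 + (b : ℂ) * τ + (c : ℂ) = 0) ∧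
        ∃ g₂ g₃ : ℂ,
          g₂ = 60 * ∑' p : ℤ × ℤ, (((p.1 : ℂ) * τ + (p.2 : ℂ))⁻¹) ^ 4 ∧
          g₃ = 140 * ∑' p : ℤ × ℤ, (((p.1 : ℂ) * τ + (p.2 : ℂ))⁻¹) ^ 6 ∧
          x = 1728 * g₂ ^ 3 / (g₂ ^ 3 - 27 * g₃ ^ 2)) ∧
      ∃ S : Finset ℕ, S.card = s ∧ (∀ p ∈ S, Nat.Prime p) ∧ x ≠ 0 ∧
        ∃ n : ℕ, IsIntegral ℤ ((∏ p ∈ S, (p : ℂ)) ^ n * x⁻¹)} := by
  open Pool.Agent.P.MP_94fe55_nt in
  exact final cm fin stab_all trans_all aut place arch_all padic_all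

end Pool.Agent.S17815
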