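import Pool.Statements.S17973
import Pool.Agent.P.MP_a14ce1_nt.Fu.Bias
import Pool.Agent.P.MP_a14ce1_nt.Fu.DaTop
import Pool.Agent.P.MP_a14ce1_nt.Fu.Fin9
import Pool.Agent.P.MP_a14ce1_nt.Fu.Glue
import Pool.Agent.P.MP_a14ce1_nt.Fu.K1
import Pool.Agent.P.MP_a14ce1_nt.Fu.L8Cat
import Pool.Agent.P.MP_a14ce1_nt.Fu.L8Conc
import Pool.Agent.P.MP_a14ce1_nt.Fu.L8Core
import Pool.Agent.P.MP_a14ce1_nt.Fu.L8Cut
import Pool.Agent.P.MP_a14ce1_nt.Fu.L8Lev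
import Pool.Agent.P.MP_a14ce1_nt.Fu.L8Mid
import Pool.Agent.P.MP_a14ce1_nt.Fu.L8Par
import Pool.Agent.P.MP_a14ce1_nt.Fu.L8RepA
import Pool.Agent.P.MP_a14ce1_nt.Fu.L8RepB
import Pool.Agent.P.MP_a14ce1_nt.Fu.L8Set
import Pool.Agent.P.MP_a14ce1_nt.Fu.PaAs0
import Pool.Agent.P.MP_a14ce1_nt.Fu.PaN5
import Pool.Agent.P.MP_a14ce1_nt.Fu.PaSig
import Pool.Agent.P.MP_a14ce1_nt.Fu.Role
import Pool.Agent.P.MP_a14ce1_nt.Fu.S7M
import Pool.Agent.P.MP_a14ce1_nt.Fu.Test1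

set_option autoImplicit false
open Pool Pool.MP_a14ce1_nt

namespace Pool.Agent.S17973

/-- For every positive integer k, the sum over 1 ≤ n ≤ N of the product of the Liouville values λ(n)λ(n+1)⋯λ(n+k−1) is o(N) as N → ∞, where λ(m) = (−1)^Ω(m). -/
theorem result :
    ∀ k : ℕ, 0 < k →
      Asymptotics.IsLittleO Filter.atTop
        (fun N : ℕ => ∑ n ∈ Finset.Icc 1 N,
            ∏ i ∈ Finset.range k, ((-1 : ℝ) ^ ArithmeticFunction.cardFactors (n + i)))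
        (fun N : ℕ => (N : ℝ)) := by
  open Pool.Agent.P.MP_a14ce1_nt.Fu in
  exact St.chowla St.Bi.bias St.Cp.s_comp St.role St.s_test1
    (St.sec7M (noPot_of_loc (L8.par8 (L8.mid8
      (L8.conc8 L8.core8 L8.repA L8.repB L8.cut8 L8.mass8 L8.lev8) L8.setup8 L8.down8 L8.cat8))))
    (Pa.par_of_chain fun _ _ _ h => h.chain_of fun _ hj =>
      ⟨h.m01' hj, h.m02' hj, h.path' hj, h.σn' hj, h.σ0' hj, h.σs' hj, h.pin' hj, h.hid' hj,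
        h.hidt' hj, h.test' hj, h.test7' hj⟩)
    St.s_vv St.s_k1

end Pool.Agent.S17973
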