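import Pool.Statements.S19323
import Pool.Agent.P.MP_542002_pr.Graph

set_option autoImplicit false
open Pool Pool.MP_542002_pr

namespace Pool.Agent.S19323

/-- Every infinite connected d-regular graph (d ≥ 3) whose return probabilities have limsup n-th root 2√(d−1)/d carries a bounded non-constant function equal at each vertex to the average of its neighbours. -/
theorem result :
    ∀ (V : Type) (G : SimpleGraph V) [G.LocallyFinite] (d : ℕ),
      Infinite V → G.Connected → 3 ≤ d → G.IsRegularOfDegree d →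
      (∀ v : V, Filter.limsup
          (fun n : ℕ =>
            ((Nat.card {p : G.Walk v v // p.length = n} : ℝ) / (d : ℝ) ^ n) ^ ((1 : ℝ) / (n : ℝ)))
          Filter.atTop = 2 * Real.sqrt ((d : ℝ) - 1) / (d : ℝ)) →
      ∃ f : V → ℝ, (∃ C : ℝ, ∀ v, |f v| ≤ C) ∧
        (∀ v, (d : ℝ) * f v = ∑ w ∈ G.neighborFinset v, f w) ∧
        ∃ x y, f x ≠ f y := by
  intro V G _ d _ hc hd hreg hl
  classical
  obtain ⟨q, rfl⟩ : ∃ q, d = q + 1 := ⟨d - 1, by omega⟩
  have hq2 : (2 : ℝ) ≤ q := by exact_mod_cast (show 2 ≤ q by omega)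
  have hq0 : (0 : ℝ) < q := by linarith
  have hsq : 0 < Real.sqrt q := Real.sqrt_pos.mpr hq0
  have hsq2 : Real.sqrt q ^ 2 = q := Real.sq_sqrt hq0.le
  have : Nonempty V := hc.nonempty
  obtain ⟨o⟩ := ‹Nonempty V›
  set t : ℝ := 1 / Real.sqrt q with ht
  have ht0 : 0 < t := by positivity
  have htq : t ^ 2 * q = 1 := by
    rw [ht, div_pow, hsq2]
    field_simp
  have ht1 : t < 1 := by nlinarith
  have hts : t * Real.sqrt q = 1 := by rw [ht]; field_simp
  have hl' := hl o
  have hcard : ∀ n : ℕ, (Nat.card {p : G.Walk o o // p.length = n} : ℝ)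
      = ((G.finsetWalkLength n o o).card : ℝ) := by
    intro n
    rw [← G.card_set_walk_length_eq, Nat.card_eq_fintype_card]
    congr 1
  simp_rw [hcard] at hl'
  push_cast at hl'
  rw [add_sub_cancel_right] at hl'
  obtain ⟨h, h0, hs⟩ := Pool.Agent.P.MP_542002_pr.super_at G hc o (t / 2) (by positivity) (by
    intro z hz hzt
    apply Pool.Agent.P.MP_542002_pr.summable_of_limsup _ (fun n => Nat.cast_nonneg _)
      ((q : ℝ) + 1) _ (by positivity) (by positivity) hl' z hz
    have : z * ((q : ℝ) + 1) * (2 * Real.sqrt q / ((q : ℝ) + 1)) = 2 * z * Real.sqrt q := by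
      field_simp
    rw [this]
    nlinarith)
  have := Pool.Agent.P.MP_542002_pr.harmonic_of_super G q hreg t ht0 ht1 htq h h0
    (fun x => by linarith [hs x])
  push_cast
  exact this

end Pool.Agent.S19323
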