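import Pool.Statements.S19420
import Pool.Agent.P.MP_78d095_pr.Final

set_option autoImplicit false
open Classical
open Pool Pool.MP_78d095_pr

namespace Pool.Agent.S19420

/-- The negation of the preceding statement: For each K≥1 there is C such that on every finite connected vertex-transitive graph, reweighting edges by factors in [1/K,K] changes the lazy random walk's L² mixing time (threshold 1/2) by at most a factor C, in both directions. -/
theorem result :
    ¬ (∀ K : ℝ, 1 ≤ K → ∃ C : ℝ, 0 < C ∧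
    ∀ (V : Type) [Fintype V] [DecidableEq V] (G : SimpleGraph V), G.Connected →
      (∀ x y : V, ∃ φ : G ≃g G, φ x = y) →
      ∀ (Mix : (V → V → ℝ) → ℕ → Prop),
        (∀ (w : V → V → ℝ) (t : ℕ), Mix w t ↔
          ∀ x : V, ∑ y : V, (∑ z : V, w y z) / (∑ a : V, ∑ b : V, w a b) *
            (((Matrix.of (fun a b : V => (if a = b then (1:ℝ)/2 else 0) + w a b / (2 * ∑ z : V, w a z))) ^ t) x y
              / ((∑ z : V, w y z) / (∑ a : V, ∑ b : V, w a b)) - 1) ^ 2 ≤ 1/4) →
        ∀ w : V → V → ℝ, (∀ a b, w a b = w b a) →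
          (∀ a b, G.Adj a b → K⁻¹ ≤ w a b ∧ w a b ≤ K) →
          (∀ a b, ¬ G.Adj a b → w a b = 0) →
          ∀ t : ℕ,
            (Mix (fun a b => if G.Adj a b then (1:ℝ) else 0) t → Mix w ⌈C * (t:ℝ)⌉₊) ∧
            (Mix w t → Mix (fun a b => if G.Adj a b then (1:ℝ) else 0) ⌈C * (t:ℝ)⌉₊)) := by
  intro h
  obtain ⟨C, hC, h⟩ := h 2 (by norm_num)
  obtain ⟨V, hV, G, a, w, t, h1, h2, h3, h4, h5, h6, h7, h8⟩ :=
    Pool.Agent.P.MP_78d095_pr.counterexample C hC
  have ha : (fun x y => if G.Adj x y then (1:ℝ) else 0) = a := by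
    funext x y
    split_ifs with hxy
    · exact (h3 x y hxy).symm
    · exact (h4 x y hxy).symm
  have h9 := (h V G h1 h2 Pool.Agent.P.MP_78d095_pr.MixP (fun _ _ => Iff.rfl) w h5 h6 h7 t).1
  rw [ha] at h9
  exact h8.2 (h9 h8.1)

end Pool.Agent.S19420
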