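import Pool.Statements.S19451
import Pool.Agent.P.MP_86995c_pr.Final

set_option autoImplicit false
open Classical Filter Topology
open Pool Pool.MP_86995c_pr

namespace Pool.Agent.S19451

/-- For every dimension d ≥ 2 and every β > 0, (1/n)·log of the sum over n-step self-avoiding walks in ℤ^d from the origin of exp(β·number of contacts) converges to a finite limit as n → ∞. -/
theorem result :
    ∀ d : ℕ, 2 ≤ d → ∀ β : ℝ, 0 < β →
      ∃ L : ℝ, Tendsto
        (fun n : ℕ =>
          (1 / (n : ℝ)) * Real.log
            (∑ w ∈ (Fintype.piFinset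
                (fun _ : Fin (n + 1) =>
                  Fintype.piFinset (fun _ : Fin d => Finset.Icc (-(n : ℤ)) (n : ℤ)))).filter
                (fun w : Fin (n + 1) → Fin d → ℤ =>
                  w 0 = 0 ∧
                  (∀ i j : Fin (n + 1), w i = w j → i = j) ∧
                  (∀ i : Fin n, ∑ k : Fin d, |w i.succ k - w i.castSucc k| = 1)),
              Real.exp (β * ((((Finset.univ : Finset (Fin (n + 1) × Fin (n + 1))).filter
                (fun p : Fin (n + 1) × Fin (n + 1) =>
                  p.1.val + 1 < p.2.val ∧
                  ∑ k : Fin d, |w p.1 k - w p.2 k| = 1)).card : ℕ) : ℝ))))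
        atTop (𝓝 L) := by
  intro d hd β hβ
  exact ⟨_, Pool.Agent.P.MP_86995c_pr.free_energy hd hβ.le⟩

end Pool.Agent.S19451
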