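import Pool.Statements.S19478
import Pool.Agent.P.MP_91dfc6_pr.Marg

set_option autoImplicit false
open MeasureTheory
open scoped ENNReal Pointwise
open Pool Pool.MP_91dfc6_pr

namespace Pool.Agent.S19478

/-- The negation of the preceding statement: For every n≥1, p in [0,∞], κ in [−∞,1/n] and every symmetric κ-concave probability law on ℝⁿ with a density whose marginals v·X have p-Rényi entropy power in (0,∞), the map v ↦ N_p(v·X)^{1/2} (0 at v=0) is a norm. -/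
theorem result :
    ¬ (∀ (n : ℕ), 1 ≤ n →
  ∀ (p : ℝ≥0∞) (κ : EReal), κ ≤ (((1 : ℝ) / (n : ℝ) : ℝ) : EReal) →
  ∀ (μ : Measure (Fin n → ℝ)), IsProbabilityMeasure μ → μ ≪ volume →
  μ.map (fun x => -x) = μ →
  (∀ (A B : Set (Fin n → ℝ)), MeasurableSet A → MeasurableSet B → A.Nonempty → B.Nonempty →
    ∀ t : ℝ, 0 ≤ t → t ≤ 1 →
      (κ = ⊥ → min (μ A) (μ B) ≤ μ (t • A + (1 - t) • B)) ∧
      (κ = 0 → ENNReal.ofReal ((μ A).toReal ^ t * (μ B).toReal ^ (1 - t))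
                  ≤ μ (t • A + (1 - t) • B)) ∧
      (κ ≠ ⊥ → κ ≠ 0 → (0 < κ ∨ (0 < μ A ∧ 0 < μ B)) →
        ENNReal.ofReal ((t * (μ A).toReal ^ κ.toReal + (1 - t) * (μ B).toReal ^ κ.toReal)
                          ^ (1 / κ.toReal))
          ≤ μ (t • A + (1 - t) • B))) →
  ∀ (g : (Fin n → ℝ) → ℝ → ℝ≥0∞),
    (∀ v : Fin n → ℝ, v ≠ 0 → Measurable (g v) ∧
      μ.map (fun x => ∑ i, v i * x i) = (volume : Measure ℝ).withDensity (g v)) →
  ∀ (N : (Fin n → ℝ) → ℝ≥0∞),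
    (p = 0 → ∀ v, N v = (volume {x : ℝ | 0 < g v x}) ^ 2) →
    (p = 1 → ∀ v,
      (Integrable (fun x => (g v x).toReal * Real.log (g v x).toReal) →
        N v = ENNReal.ofReal (Real.exp (-2 * ∫ x, (g v x).toReal * Real.log (g v x).toReal))) ∧
      (¬ Integrable (fun x => (g v x).toReal * Real.log (g v x).toReal) → N v = 0)) →
    (p = ⊤ → ∀ v, N v = (essSup (g v) volume) ^ (-2 : ℝ)) →
    (p ≠ 0 → p ≠ 1 → p ≠ ⊤ → ∀ v,
      N v = (∫⁻ x, g v x ^ p.toReal) ^ (2 / (1 - p.toReal))) →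
    (∀ v : Fin n → ℝ, v ≠ 0 → 0 < N v ∧ N v < ⊤) →
  ∀ (nrm : (Fin n → ℝ) → ℝ),
    (∀ v, (v = 0 → nrm v = 0) ∧ (v ≠ 0 → nrm v = Real.sqrt (N v).toReal)) →
    (∀ u v : Fin n → ℝ, nrm (u + v) ≤ nrm u + nrm v) ∧
    (∀ (c : ℝ) (v : Fin n → ℝ), nrm (c • v) = |c| * nrm v) ∧
    (∀ v : Fin n → ℝ, nrm v = 0 → v = 0)) := by
  intro h
  open Pool.Agent.P.MP_91dfc6_pr in
  have e2 : (2 : ℝ≥0∞).toReal = 2 := by simp
  open Pool.Agent.P.MP_91dfc6_pr in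
  have eN : ∀ v : Fin 2 → ℝ,
      (∫⁻ x, gg v x ^ (2 : ℝ≥0∞).toReal) ^ (2 / (1 - (2 : ℝ≥0∞).toReal)) = ((II v)⁻¹) ^ 2 := by
    intro v
    have e3 : (∫⁻ x, gg v x ^ (2 : ℝ≥0∞).toReal) = II v := by
      unfold II
      congr 1
      ext x
      rw [e2, ENNReal.rpow_two, sq]
    rw [e3, e2, show (2 / (1 - 2) : ℝ) = -2 by norm_num, ENNReal.rpow_neg, ENNReal.rpow_two,
      ENNReal.inv_pow]
  open Pool.Agent.P.MP_91dfc6_pr in
  have key := h 2 (by norm_num) 2 ⊥ bot_le mu2 inferInstance mu2_ac mu2_neg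
    (fun A B hA hB hAn hBn t ht0 ht1 =>
      ⟨fun _ => mu2_concave hA hB hAn hBn ht0 ht1, fun h0 => absurd h0 (by simp),
        fun h0 => absurd rfl h0⟩)
    gg (fun v hv => ⟨measurable_gg v, map_mu2 hv⟩)
    (fun v => ((II v)⁻¹) ^ 2) (fun h0 => absurd h0 (by norm_num))
    (fun h0 => absurd h0 (by norm_num)) (fun h0 => absurd h0 (by norm_num))
    (fun _ _ _ v => (eN v).symm)
    (fun v hv => ⟨ENNReal.pow_pos (ENNReal.inv_pos.2 (II_ne_top hv)) 2,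
      ENNReal.pow_lt_top (ENNReal.inv_lt_top.2 (pos_iff_ne_zero.2 (II_ne_zero hv)))⟩)
    (fun v => if v = 0 then 0 else ((II v).toReal)⁻¹)
    (fun v => ⟨fun hv => by simp [hv], fun hv => by
      simp only [hv, if_false, ENNReal.toReal_pow, ENNReal.toReal_inv]
      rw [Real.sqrt_sq (by positivity)]⟩)
  obtain ⟨u, v, hu, hv, huv, hlt⟩ := Pool.Agent.P.MP_91dfc6_pr.violation
  have h1 := key.1 u v
  simp only [hu, hv, huv, if_false] at h1
  linarith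

end Pool.Agent.S19478
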