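import Pool.Statements.S19618
import Pool.Agent.P.MP_c12967_pr.Measure
import Pool.Agent.P.MP_c12967_pr.Model
import Pool.Agent.P.MP_c12967_pr.HL

set_option autoImplicit false
open MeasureTheory ProbabilityTheory
open Pool Pool.MP_c12967_pr

namespace Pool.Agent.S19618

/-- The negation of the preceding statement: Any two shift-invariant laws of random 4-colorings of the integers (adjacent sites a.s. different colors) under which site sets at distance more than 1 are independent must be the same law. -/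
theorem result :
    ¬ (∀ μ ν : Measure (ℤ → Fin 4),
      IsProbabilityMeasure μ → IsProbabilityMeasure ν →
      Measure.map (fun x : ℤ → Fin 4 => fun n : ℤ => x (n + 1)) μ = μ →
      Measure.map (fun x : ℤ → Fin 4 => fun n : ℤ => x (n + 1)) ν = ν →
      (∀ᵐ x ∂μ, ∀ n : ℤ, x n ≠ x (n + 1)) →
      (∀ᵐ x ∂ν, ∀ n : ℤ, x n ≠ x (n + 1)) →
      (∀ A B : Set ℤ, (∀ a ∈ A, ∀ b ∈ B, 1 < |a - b|) →
        Indep (⨆ a ∈ A, MeasurableSpace.comap (fun x : ℤ → Fin 4 => x a) (⊤ : MeasurableSpace (Fin 4)))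
          (⨆ b ∈ B, MeasurableSpace.comap (fun x : ℤ → Fin 4 => x b) (⊤ : MeasurableSpace (Fin 4))) μ) →
      (∀ A B : Set ℤ, (∀ a ∈ A, ∀ b ∈ B, 1 < |a - b|) →
        Indep (⨆ a ∈ A, MeasurableSpace.comap (fun x : ℤ → Fin 4 => x a) (⊤ : MeasurableSpace (Fin 4)))
          (⨆ b ∈ B, MeasurableSpace.comap (fun x : ℤ → Fin 4 => x b) (⊤ : MeasurableSpace (Fin 4))) ν) →
      μ = ν) := by
  intro h
  obtain ⟨P, p0, p1, p2, p3, p4⟩ := Pool.Agent.P.MP_c12967_pr.exists_new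
  obtain ⟨Q, q0, q1, q2, q3, q4⟩ := Pool.Agent.P.MP_c12967_pr.exists_HL
  obtain ⟨μ, m0, m1, m2, m3, m4⟩ :=
    Pool.Agent.P.MP_c12967_pr.Meas.exists_measure P p0 p1 p2 (fun a => p3 [] [] a)
  obtain ⟨ν, n0, n1, n2, n3, n4⟩ :=
    Pool.Agent.P.MP_c12967_pr.Meas.exists_measure Q q0 q1 q2 (fun a => q3 [] [] a)
  have e := h μ ν m0 n0 m1 n1 m2 n2 m3 n3
  rw [e, n4, p4, q4, ENNReal.ofReal_eq_ofReal_iff (by norm_num) (by norm_num)] at m4
  norm_num at m4

end Pool.Agent.S19618
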